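import Pool.Agent.helper25.SX.FinX
import Pool.Agent.KD.AllD

set_option autoImplicit false

/-!
# Module FinY: the version for every degree

If `C (M+1) ^ (5/4 + ε) ≤ d` or `C (M+1) ^ (5/2 + ε) ≤ ∑ (m i) ^ 2` then the system is non-special.
-/

namespace Pool.Agent.helper25.SX

open MvPolynomial Pool.Agent.helper89.Segre Pool.Agent.SH9 Pool.Agent.helper25.ST

private lemma card_pos' {d : ℕ} (h : 1 ≤ d) : 2 * (tri d).card ≤ 6 * d ^ 2 := by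
  rw [card_tri, two_choose]
  nlinarith

/-- every degree -/
theorem exactAll (j : ℕ) : ∃ C : ℕ, ∀ (M : ℕ) (ms : Multiset ℕ), (∀ μ ∈ ms, μ ≤ M) →
    C * (M + 1) ^ (5 * 9 ^ j + 1) ≤ cd ms ^ (2 * 9 ^ j) →
    ∀ d, Good ℂ (tri d) ms (min (cd ms) (tri d).card) := by
  obtain ⟨C, hC⟩ := exactM j
  refine ⟨(C + 1) * 6 ^ (2 * 9 ^ j), ?_⟩
  intro M ms hms h
  have hpos : 0 < 9 ^ j := by positivity
  -- the key inequality
  have key : ∀ d, cd ms ≤ (tri d).card + (d + 2) →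
      C * (M + 1) ^ (5 * 9 ^ j + 1) ≤ d ^ (4 * 9 ^ j) := by
    intro d hd
    have h6 : cd ms ≤ 6 * d ^ 2 ∨ d = 0 := by
      rcases Nat.eq_zero_or_pos d with h0 | h0
      · exact Or.inr h0
      · left
        have h1 := two_choose d
        rw [card_tri] at hd
        nlinarith
    rcases h6 with h6 | h6
    · have h1 : cd ms ^ (2 * 9 ^ j) ≤ 6 ^ (2 * 9 ^ j) * d ^ (4 * 9 ^ j) := by
        calc cd ms ^ (2 * 9 ^ j) ≤ (6 * d ^ 2) ^ (2 * 9 ^ j) := Nat.pow_le_pow_left h6 _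
          _ = 6 ^ (2 * 9 ^ j) * d ^ (4 * 9 ^ j) := by
            rw [mul_pow, ← pow_mul]
            congr 2
            ring
      have h2 : 0 < 6 ^ (2 * 9 ^ j) := by positivity
      have h3 : 6 ^ (2 * 9 ^ j) * (C * (M + 1) ^ (5 * 9 ^ j + 1)) ≤
          6 ^ (2 * 9 ^ j) * d ^ (4 * 9 ^ j) := by
        refine le_trans ?_ h1
        refine le_trans ?_ h
        have : 0 ≤ 6 ^ (2 * 9 ^ j) * (M + 1) ^ (5 * 9 ^ j + 1) := Nat.zero_le _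
        nlinarith
      exact Nat.le_of_mul_le_mul_left h3 h2
    · exfalso
      subst h6
      rw [card_tri] at hd
      have h1 : cd ms ≤ 3 := by
        have : (0 + 2).choose 2 = 1 := rfl
        omega
      have h2 : cd ms ^ (2 * 9 ^ j) ≤ 3 ^ (2 * 9 ^ j) := Nat.pow_le_pow_left h1 _
      have h3 : 3 ^ (2 * 9 ^ j) < 6 ^ (2 * 9 ^ j) :=
        Nat.pow_lt_pow_left (by norm_num) (by positivity)
      have h4 : 6 ^ (2 * 9 ^ j) ≤ (C + 1) * 6 ^ (2 * 9 ^ j) * (M + 1) ^ (5 * 9 ^ j + 1) := by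
        have h5 : 0 < (M + 1) ^ (5 * 9 ^ j + 1) := by positivity
        calc 6 ^ (2 * 9 ^ j) = 1 * 6 ^ (2 * 9 ^ j) * 1 := by ring
          _ ≤ (C + 1) * 6 ^ (2 * 9 ^ j) * (M + 1) ^ (5 * 9 ^ j + 1) :=
            Nat.mul_le_mul (Nat.mul_le_mul (by omega) le_rfl) h5
      omega
  have e : Pool.Agent.helper61.EX.cd ms = cd ms := rfl
  refine Pool.Agent.KD.all_d (ms := ms) ?_ ?_
  · intro d h1 _
    rw [e] at h1 ⊢
    have := hC d M ms hms (key d (by omega))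
    rwa [min_eq_left h1] at this
  · intro d h1 h2
    rw [e] at h1 h2
    have := hC d M ms hms (key d h2)
    rwa [min_eq_right h1.le] at this

theorem exactEps2 (ε : ℝ) (hε : 0 < ε) : ∃ C : ℝ, 0 < C ∧ ∀ (d h M : ℕ) (m : Fin h → ℕ),
    (∀ i, m i ≤ M) → (C * ((M : ℝ) + 1) ^ (5 / 4 + ε) ≤ d ∨
      C * ((M : ℝ) + 1) ^ (5 / 2 + ε) ≤ ∑ i, (m i : ℝ) ^ 2) →
    ∃ Q : MvPolynomial (Fin h × Fin 3) ℂ, Q ≠ 0 ∧ ∀ p : Fin h → Fin 3 → ℂ,
      eval (fun ij : Fin h × Fin 3 => p ij.1 ij.2) Q ≠ 0 →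
      Module.finrank ℂ (sys d h m p) = (d + 2).choose 2 - ∑ k, (m k + 1).choose 2 := by
  obtain ⟨j, hj⟩ := pow_unbounded_of_one_lt (1 / (2 * ε)) (by norm_num : (1 : ℝ) < 9)
  have hj1 : 1 ≤ 2 * (9 : ℝ) ^ j * ε := by
    rw [div_lt_iff₀ (by positivity)] at hj
    nlinarith
  obtain ⟨C, hC⟩ := exactAll j
  obtain ⟨C2, hC20, hC2⟩ := exactEps ε hε
  have hCn : (0 : ℝ) ≤ C := Nat.cast_nonneg C
  refine ⟨max C2 (2 * ((C : ℝ) + 1)), lt_max_of_lt_left hC20, ?_⟩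
  intro d h M m hm hd
  have hM1 : (1 : ℝ) ≤ (M : ℝ) + 1 := by
    have := Nat.cast_nonneg (α := ℝ) M
    linarith
  have hM0 : (0 : ℝ) ≤ (M : ℝ) + 1 := by linarith
  rcases hd with hd | hd
  · refine hC2 d h M m hm (le_trans ?_ hd)
    exact mul_le_mul_of_nonneg_right (le_max_left _ _) (Real.rpow_nonneg hM0 _)
  have hN0 : 2 * 9 ^ j ≠ 0 := by positivity
  have hC1 : (1 : ℝ) ≤ (C : ℝ) + 1 := by linarith
  have hcd : cd (Finset.univ.val.map m) = ∑ k, (m k + 1).choose 2 := sumkk_eq m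
  have hsq : ∑ i, (m i : ℝ) ^ 2 ≤ 2 * (cd (Finset.univ.val.map m) : ℝ) := by
    rw [hcd]
    push_cast
    rw [Finset.mul_sum]
    refine Finset.sum_le_sum fun i _ => ?_
    have h1 : 2 * (m i + 1).choose 2 = m i * (m i + 1) := by
      have h := two_mul_kk (m i)
      rw [kk] at h
      rw [h]
      ring
    have h2 : (2 : ℝ) * ((m i + 1).choose 2 : ℕ) = (m i : ℝ) * ((m i : ℝ) + 1) := by
      exact_mod_cast h1
    have h3 : (0 : ℝ) ≤ m i := Nat.cast_nonneg _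
    nlinarith
  have hbase : ((C : ℝ) + 1) * ((M : ℝ) + 1) ^ (5 / 2 + ε) ≤
      (cd (Finset.univ.val.map m) : ℝ) := by
    have h1 : 2 * ((C : ℝ) + 1) * ((M : ℝ) + 1) ^ (5 / 2 + ε) ≤
        max C2 (2 * ((C : ℝ) + 1)) * ((M : ℝ) + 1) ^ (5 / 2 + ε) :=
      mul_le_mul_of_nonneg_right (le_max_right _ _) (Real.rpow_nonneg hM0 _)
    linarith
  have key : ((C * (M + 1) ^ (5 * 9 ^ j + 1) : ℕ) : ℝ) ≤
      ((cd (Finset.univ.val.map m) ^ (2 * 9 ^ j) : ℕ) : ℝ) := by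
    have h1 : (((C : ℝ) + 1) * ((M : ℝ) + 1) ^ (5 / 2 + ε)) ^ (2 * 9 ^ j) ≤
        (cd (Finset.univ.val.map m) : ℝ) ^ (2 * 9 ^ j) :=
      pow_le_pow_left₀ (mul_nonneg (by linarith) (Real.rpow_nonneg hM0 _)) hbase _
    have h2 : ((M : ℝ) + 1) ^ (5 * 9 ^ j + 1) ≤ (((M : ℝ) + 1) ^ (5 / 2 + ε)) ^ (2 * 9 ^ j) := by
      rw [← Real.rpow_natCast (((M : ℝ) + 1) ^ (5 / 2 + ε)), ← Real.rpow_mul hM0,
        ← Real.rpow_natCast ((M : ℝ) + 1)]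
      apply Real.rpow_le_rpow_of_exponent_le hM1
      push_cast
      nlinarith
    have h3 : (C : ℝ) ≤ ((C : ℝ) + 1) ^ (2 * 9 ^ j) :=
      le_trans (by linarith) (le_self_pow₀ hC1 hN0)
    push_cast
    calc (C : ℝ) * ((M : ℝ) + 1) ^ (5 * 9 ^ j + 1)
        ≤ ((C : ℝ) + 1) ^ (2 * 9 ^ j) * (((M : ℝ) + 1) ^ (5 / 2 + ε)) ^ (2 * 9 ^ j) :=
          mul_le_mul h3 h2 (pow_nonneg hM0 _) (pow_nonneg (by linarith) _)
      _ = (((C : ℝ) + 1) * ((M : ℝ) + 1) ^ (5 / 2 + ε)) ^ (2 * 9 ^ j) := (mul_pow _ _ _).symm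
      _ ≤ _ := h1
  have hms : ∀ μ ∈ (Finset.univ.val.map m : Multiset ℕ), μ ≤ M := by
    intro μ hμ
    obtain ⟨i, _, rfl⟩ := Multiset.mem_map.mp hμ
    exact hm i
  have hG := hC M _ hms (by exact_mod_cast key) d
  rw [hcd, card_tri] at hG
  exact generic_of_good hG

end Pool.Agent.helper25.SX
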