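import Pool.Agent.helper25.ST.Proc
import Pool.Agent.helper25.ST.Split
import Pool.Agent.helper61.EX.Four

set_option autoImplicit false

/-!
# Project SX (MP_cfebfb_ag): exact non-speciality for `d ≥ C M ^ (5/4 + ε)`: definitions

`P d ms s`: the system of degree `d` with multiplicities `ms` and `s` simple points is empty.
-/

namespace Pool.Agent.helper25.SX

open MvPolynomial Pool.Agent.helper89.Segre Pool.Agent.SH9 Pool.Agent.helper25.ST

/-- the system of degree `d` with multiplicities `ms` and `s` simple points is empty -/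
def P (d : ℕ) (ms : Multiset ℕ) (s : ℕ) : Prop := E d (ms + Multiset.replicate s 1)

/-- `(3 ^ j - 1) / 2` -/
def cj : ℕ → ℕ
  | 0 => 0
  | j + 1 => 3 * cj j + 1

lemma cj_succ (j : ℕ) : cj (j + 1) = 3 * cj j + 1 := rfl

lemma two_cj (j : ℕ) : 2 * cj j + 1 = 3 ^ j := by
  induction j with
  | zero => rfl
  | succ j ih => rw [cj_succ, pow_succ]; omega

/-- the group `G` with `s` simple points has become `Y` with `s'` simple points: no condition is lost,
at least `x / 2` conditions or simple points are won -/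
structure POut (G : Multiset ℕ) (s x B : ℕ) (Y : Multiset ℕ) (s' : ℕ) : Prop where
  two : ∀ μ ∈ Y, 2 ≤ μ
  le : ∀ μ ∈ Y, μ ≤ B
  s2 : S2 Y ≤ S2 G
  cond : cd G + s ≤ cd Y + s'
  simple : s ≤ s'
  prog : 2 * s + x ≤ 2 * s' ∨ 2 * (cd G + s) + x ≤ 2 * (cd Y + s')
  card : Multiset.card Y < Multiset.card G

/-- sum of `μ + 1` over the elements at most `M` -/
def mass (M : ℕ) (ms : Multiset ℕ) : ℕ := S1 (ms.filter fun μ => μ ≤ M)

lemma mass_add (M : ℕ) (a b : Multiset ℕ) : mass M (a + b) = mass M a + mass M b := by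
  rw [mass, Multiset.filter_add, S1_add]; rfl

/-- there are four equal elements, or four disjoint subsets of `9 ^ j` nearly equal elements with
equal sums -/
def Avail (M j : ℕ) (ms : Multiset ℕ) : Prop :=
  (∃ x, 2 ≤ x ∧ x ≤ M ∧ Multiset.replicate 4 x ≤ ms) ∨
  ∃ (x ω A : ℕ) (G : Fin 4 → Multiset ℕ), 2 ≤ x ∧ 5 * 3 ^ j * ω ^ 2 ≤ x ∧ x + ω ≤ M ∧
    (∀ i, Multiset.card (G i) = 9 ^ j ∧ (G i).sum = A ∧ ∀ μ ∈ G i, x ≤ μ ∧ μ ≤ x + ω) ∧
    ∑ i, G i ≤ ms

/-- the black box: systems with enough simple points or enough additional conditions -/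
def Win (d W Φ w : ℕ) : Prop := ∀ (ms : Multiset ℕ) (s : ℕ), (∀ μ ∈ ms, 2 ≤ μ ∧ μ + 1 ≤ W) →
  S2 ms ≤ Φ → (d + 2).choose 2 ≤ cd ms + s →
  (w ≤ s ∨ (d + 2).choose 2 + w ≤ cd ms + s) → P d ms s

end Pool.Agent.helper25.SX
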