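import Mathlib

set_option autoImplicit false

/-!
# Module En0: additive energies: `cs_count`, `en_zero`, `en_one`, `en_pos`, `en_lower` (rest: EnLog, EnA)

`Tup A n`: tuples of `n` elements of `A`. `En A n`: number of pairs of tuples with equal sums.
`cs_count` (Cauchy-Schwarz): with `a(t) = #{x ∈ X | f x = t}`, `b(t) = #{y ∈ Y | g y = t}`:
`#{(x, y) | f x = g y} = ∑ a(t) b(t)`, `#{(x, x') | f x = f x'} = ∑ a(t) ^ 2` (sum over the finite set of
values).
`en_logconv`: `E_n = #{(z, (x, y)) | ∑ z = ∑ x - y}` with `z ∈ A ^ (n-1)`, `x ∈ A ^ n`, `y ∈ A` (move `y` to the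
other side: `(z, y)` is a tuple of `A ^ n`, `Fin.cons`), `cs_count`; and
`#{((x, y), (x', y')) | ∑ x - y = ∑ x' - y'} = E_(n+1)` (`(x, y')`, `(x', y)` tuples of `A ^ (n+1)`). Values in
`ℤ`.
`en_lower`: `cs_count`-like: `(∑_t r(t)) ^ 2 ≤ (number of values) ∑ r(t) ^ 2`, the sums lie in an interval
of `n L + 1` integers.
`en_ratio`: let `q k = E_(k+1) / E_k` (real numbers; `E_k ≥ 1` as `A` is not empty); by
`en_logconv` `q` is nondecreasing, `q 0 = K`. So `q (n-1) ^ n ≥ ∏_(k<n) q k = E_n ≥ K ^ (2n) / (nL+1) ≥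
(c ^ 2 K) ^ n` if `K ^ n ≥ c ^ (2n) (nL+1)`; so `E_n ≥ c ^ 2 K E_(n-1)`. For `n ≥ 2` also
`E_(n-1) ≥ K E_(n-2)` (`q (n-2) ≥ q 0`), so `E_n ≥ c ^ 2 K ^ 2 E_(n-2)`.
-/

namespace Pool.Agent.helper25.SX

/-- tuples -/
def Tup (A : Finset ℕ) (n : ℕ) : Finset (Fin n → ℕ) := Fintype.piFinset fun _ => A

/-- the energy -/
def En (A : Finset ℕ) (n : ℕ) : ℕ :=
  ((Tup A n ×ˢ Tup A n).filter fun p => ∑ i, p.1 i = ∑ i, p.2 i).card

private lemma card_pairs {α β : Type} (X : Finset α) (Y : Finset β) (f : α → ℤ) (g : β → ℤ)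
    (T : Finset ℤ) (hT : ∀ x ∈ X, f x ∈ T) :
    ((X ×ˢ Y).filter fun p => f p.1 = g p.2).card =
      ∑ t ∈ T, (X.filter fun x => f x = t).card * (Y.filter fun y => g y = t).card := by
  classical
  rw [Finset.card_eq_sum_card_fiberwise (f := fun p : α × β => f p.1) (t := T)]
  · refine Finset.sum_congr rfl fun t _ => ?_
    rw [← Finset.card_product]
    congr 1
    ext ⟨x, y⟩
    simp only [Finset.mem_filter, Finset.mem_product]
    constructor
    · rintro ⟨⟨⟨hx, hy⟩, h1⟩, h2⟩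
      exact ⟨⟨hx, h2⟩, hy, by rw [← h1]; exact h2⟩
    · rintro ⟨⟨hx, h2⟩, hy, h3⟩
      exact ⟨⟨⟨hx, hy⟩, by rw [h2, h3]⟩, h2⟩
  · intro p hp
    simp only [Finset.coe_filter, Finset.mem_product, Set.mem_ofPred_eq] at hp
    exact hT _ hp.1.1

theorem cs_count {α β : Type} (X : Finset α) (Y : Finset β) (f : α → ℤ) (g : β → ℤ) :
    ((X ×ˢ Y).filter fun p => f p.1 = g p.2).card ^ 2 ≤
      ((X ×ˢ X).filter fun p => f p.1 = f p.2).card *
        ((Y ×ˢ Y).filter fun p => g p.1 = g p.2).card := by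
  classical
  have hX : ∀ x ∈ X, f x ∈ X.image f ∪ Y.image g := fun x hx =>
    Finset.mem_union_left _ (Finset.mem_image_of_mem f hx)
  have hY : ∀ y ∈ Y, g y ∈ X.image f ∪ Y.image g := fun y hy =>
    Finset.mem_union_right _ (Finset.mem_image_of_mem g hy)
  rw [card_pairs X Y f g _ hX, card_pairs X X f f _ hX, card_pairs Y Y g g _ hY]
  have h := Finset.sum_mul_sq_le_sq_mul_sq (X.image f ∪ Y.image g)
    (fun t => (X.filter fun x => f x = t).card) (fun t => (Y.filter fun y => g y = t).card)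
  simpa only [sq] using h

lemma en_zero (A : Finset ℕ) : En A 0 = 1 := by
  simp [En, Tup]

private lemma mem_tup {A : Finset ℕ} {n : ℕ} {x : Fin n → ℕ} : x ∈ Tup A n ↔ ∀ i, x i ∈ A := by
  simp [Tup]

lemma en_one (A : Finset ℕ) : En A 1 = A.card := by
  classical
  have h : ((Tup A 1 ×ˢ Tup A 1).filter fun p => ∑ i, p.1 i = ∑ i, p.2 i) =
      A.image fun a => ((fun _ => a, fun _ => a) : (Fin 1 → ℕ) × (Fin 1 → ℕ)) := by
    ext ⟨x, y⟩
    simp only [Finset.mem_filter, Finset.mem_product, mem_tup, Finset.mem_image, Prod.mk.injEq,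
      Fin.sum_univ_one]
    constructor
    · rintro ⟨⟨hx, _⟩, h⟩
      refine ⟨x 0, hx 0, ?_, ?_⟩
      · funext i
        rw [Subsingleton.elim i 0]
      · funext i
        rw [Subsingleton.elim i 0, h]
    · rintro ⟨a, ha, rfl, rfl⟩
      exact ⟨⟨fun _ => ha, fun _ => ha⟩, rfl⟩
  unfold En
  rw [h, Finset.card_image_of_injective]
  intro a b hab
  have := congrArg (fun p : (Fin 1 → ℕ) × (Fin 1 → ℕ) => p.1 0) hab
  simpa using this

lemma en_pos {A : Finset ℕ} (hA : A.Nonempty) (n : ℕ) : 0 < En A n := by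
  obtain ⟨a, ha⟩ := hA
  unfold En
  rw [Finset.card_pos]
  refine ⟨(fun _ => a, fun _ => a), ?_⟩
  simp only [Finset.mem_filter, Finset.mem_product, mem_tup]
  exact ⟨⟨fun _ => ha, fun _ => ha⟩, trivial⟩

private lemma sum_bounds {A : Finset ℕ} {a L : ℕ} (hA : ∀ x ∈ A, a ≤ x ∧ x ≤ a + L) {n : ℕ}
    {x : Fin n → ℕ} (hx : x ∈ Tup A n) : n * a ≤ ∑ i, x i ∧ ∑ i, x i ≤ n * a + n * L := by
  rw [mem_tup] at hx
  constructor
  · calc n * a = ∑ _i : Fin n, a := by simp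
      _ ≤ ∑ i, x i := Finset.sum_le_sum fun i _ => (hA _ (hx i)).1
  · calc ∑ i, x i ≤ ∑ _i : Fin n, (a + L) := Finset.sum_le_sum fun i _ => (hA _ (hx i)).2
      _ = n * a + n * L := by simp [mul_add]

theorem en_lower {A : Finset ℕ} {a L : ℕ} (hA : ∀ x ∈ A, a ≤ x ∧ x ≤ a + L) (n : ℕ) :
    A.card ^ (2 * n) ≤ (n * L + 1) * En A n := by
  classical
  set T : Finset ℤ := (Finset.Icc (n * a) (n * a + n * L)).image (fun k : ℕ => (k : ℤ)) with hTdef
  have hT : ∀ x ∈ Tup A n, ((∑ i, x i : ℕ) : ℤ) ∈ T := by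
    intro x hx
    rw [hTdef, Finset.mem_image]
    obtain ⟨h1, h2⟩ := sum_bounds hA hx
    exact ⟨_, Finset.mem_Icc.mpr ⟨h1, h2⟩, rfl⟩
  have hTc : T.card = n * L + 1 := by
    rw [hTdef, Finset.card_image_of_injective _ Nat.cast_injective, Nat.card_Icc]
    omega
  have hE : En A n = ∑ t ∈ T, ((Tup A n).filter fun x => ((∑ i, x i : ℕ) : ℤ) = t).card ^ 2 := by
    have h := card_pairs (Tup A n) (Tup A n) (fun x => ((∑ i, x i : ℕ) : ℤ))
      (fun x => ((∑ i, x i : ℕ) : ℤ)) T hT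
    unfold En
    simp only [Nat.cast_inj] at h
    rw [h]
    exact Finset.sum_congr rfl fun t _ => (sq _).symm
  have hS : A.card ^ n = ∑ t ∈ T, ((Tup A n).filter fun x => ((∑ i, x i : ℕ) : ℤ) = t).card := by
    rw [← Finset.card_eq_sum_card_fiberwise (f := fun x : Fin n → ℕ => ((∑ i, x i : ℕ) : ℤ))]
    · simp [Tup]
    · intro x hx
      exact hT x hx
  have hCS := Finset.sum_mul_sq_le_sq_mul_sq T (fun _ => (1 : ℕ))
    (fun t => ((Tup A n).filter fun x => ((∑ i, x i : ℕ) : ℤ) = t).card)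
  simp only [one_mul, one_pow, Finset.sum_const, smul_eq_mul, mul_one] at hCS
  rw [← hS, ← hE, hTc] at hCS
  calc A.card ^ (2 * n) = (A.card ^ n) ^ 2 := by rw [← pow_mul, mul_comm]
    _ ≤ _ := hCS

end Pool.Agent.helper25.SX
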