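import Pool.Agent.helper25.SX.EnLog

set_option autoImplicit false

/-!
# Module EnA: additive energies: `en_ratio` (rest: En0, EnLog)

`Tup A n`: tuples of `n` elements of `A`. `En A n`: number of pairs of tuples with equal sums.
`cs_count` (Cauchy-Schwarz): with `a(t) = #{x ∈ X | f x = t}`, `b(t) = #{y ∈ Y | g y = t}`:
`#{(x, y) | f x = g y} = ∑ a(t) b(t)`, `#{(x, x') | f x = f x'} = ∑ a(t) ^ 2` (sum over the finite set of
values).
`en_logconv`: `E_n = #{(z, (x, y)) | ∑ z = ∑ x - y}` with `z ∈ A ^ (n-1)`, `x ∈ A ^ n`, `y ∈ A` (move `y` to the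
other side: `(z, y)` is a tuple of `A ^ n`, `Fin.cons`), `cs_count`; and
`#{((x, y), (x', y')) | ∑ x - y = ∑ x' - y'} = E_(n+1)` (`(x, y')`, `(x', y)` tuples of `A ^ (n+1)`). Values in
`ℤ`.
`en_lower`: `cs_count`-like: `(∑_t r(t)) ^ 2 ≤ (number of values) ∑ r(t) ^ 2`, the sums lie in an interval
of `n L + 1` integers.
`en_ratio`: let `q k = E_(k+1) / E_k` (real numbers; `E_k ≥ 1` as `A` is not empty); by
`en_logconv` `q` is nondecreasing, `q 0 = K`. So `q (n-1) ^ n ≥ ∏_(k<n) q k = E_n ≥ K ^ (2n) / (nL+1) ≥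
(c ^ 2 K) ^ n` if `K ^ n ≥ c ^ (2n) (nL+1)`; so `E_n ≥ c ^ 2 K E_(n-1)`. For `n ≥ 2` also
`E_(n-1) ≥ K E_(n-2)` (`q (n-2) ≥ q 0`), so `E_n ≥ c ^ 2 K ^ 2 E_(n-2)`.
-/

namespace Pool.Agent.helper25.SX

theorem en_ratio {A : Finset ℕ} {a L n c : ℕ} (hA : ∀ x ∈ A, a ≤ x ∧ x ≤ a + L) (hc : 1 ≤ c)
    (hK : (c ^ 2) ^ (n + 2) * ((n + 2) * L + 1) ≤ A.card ^ (n + 2)) :
    c ^ 2 * A.card * En A (n + 1) ≤ En A (n + 2) ∧ c ^ 2 * A.card ^ 2 * En A n ≤ En A (n + 2) := by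
  have hK0 : A.card ≠ 0 := by
    intro h
    rw [h, zero_pow (by omega)] at hK
    have h1 : 0 < (c ^ 2) ^ (n + 2) * ((n + 2) * L + 1) := by positivity
    omega
  have hne : A.Nonempty := Finset.card_ne_zero.1 hK0
  have hE : ∀ k, (0 : ℝ) < (En A k : ℝ) := fun k => by exact_mod_cast en_pos hne k
  have hKp : (0 : ℝ) < (A.card : ℝ) := by exact_mod_cast Nat.pos_of_ne_zero hK0
  obtain ⟨q, hq⟩ : ∃ q : ℕ → ℝ, ∀ j, q j = (En A (j + 1) : ℝ) / En A j := ⟨_, fun _ => rfl⟩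
  have hqE : ∀ j, (En A (j + 1) : ℝ) = q j * En A j := fun j => by
    rw [hq, div_mul_cancel₀ _ (hE j).ne']
  have hqpos : ∀ j, 0 < q j := fun j => by rw [hq]; exact div_pos (hE _) (hE _)
  have hmono : Monotone q := by
    apply monotone_nat_of_le_succ
    intro j
    rw [hq, hq, div_le_div_iff₀ (hE _) (hE _)]
    have h1 : ((En A (j + 1) : ℝ)) ^ 2 ≤ En A j * En A (j + 2) := by
      exact_mod_cast en_logconv A j
    calc (En A (j + 1) : ℝ) * En A (j + 1) = (En A (j + 1) : ℝ) ^ 2 := by ring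
      _ ≤ En A j * En A (j + 2) := h1
      _ = (En A (j + 1 + 1) : ℝ) * En A j := by ring
  have hq0 : q 0 = A.card := by
    rw [hq, en_one, en_zero, Nat.cast_one, div_one]
  -- `E_m ≤ q (n + 1) ^ m`
  have hpow : ∀ m, m ≤ n + 2 → (En A m : ℝ) ≤ q (n + 1) ^ m := by
    intro m
    induction m with
    | zero =>
      intro _
      rw [en_zero, pow_zero, Nat.cast_one]
    | succ m ih =>
      intro hm
      have h1 := ih (by omega)
      have h2 : q m ≤ q (n + 1) := hmono (by omega)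
      rw [hqE m, pow_succ, mul_comm]
      exact mul_le_mul h1 h2 (hqpos m).le (pow_nonneg (hqpos _).le _)
  -- `(c ^ 2 K) ^ (n + 2) ≤ E_(n + 2)`
  have hlow : ((c : ℝ) ^ 2 * A.card) ^ (n + 2) ≤ En A (n + 2) := by
    have h1 := en_lower hA (n + 2)
    have h2 : (c ^ 2 * A.card) ^ (n + 2) * ((n + 2) * L + 1) ≤
        ((n + 2) * L + 1) * En A (n + 2) := by
      calc (c ^ 2 * A.card) ^ (n + 2) * ((n + 2) * L + 1)
          = A.card ^ (n + 2) * ((c ^ 2) ^ (n + 2) * ((n + 2) * L + 1)) := by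
            rw [mul_pow]; ring
        _ ≤ A.card ^ (n + 2) * A.card ^ (n + 2) := Nat.mul_le_mul_left _ hK
        _ = A.card ^ (2 * (n + 2)) := by rw [← pow_add]; congr 1; ring
        _ ≤ ((n + 2) * L + 1) * En A (n + 2) := h1
    have h3 : (c ^ 2 * A.card) ^ (n + 2) ≤ En A (n + 2) := by
      rw [mul_comm] at h2
      exact Nat.le_of_mul_le_mul_left h2 (by positivity)
    exact_mod_cast h3
  have hcK : (0 : ℝ) ≤ (c : ℝ) ^ 2 * A.card := mul_nonneg (sq_nonneg _) hKp.le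
  have hmain : (c : ℝ) ^ 2 * A.card ≤ q (n + 1) := by
    have h1 := hlow.trans (hpow (n + 2) le_rfl)
    exact (pow_le_pow_iff_left₀ hcK (hqpos _).le (by omega)).1 h1
  have g1 : (c : ℝ) ^ 2 * A.card * En A (n + 1) ≤ En A (n + 2) := by
    have h1 := hqE (n + 1)
    rw [show n + 2 = n + 1 + 1 by rfl, h1]
    exact mul_le_mul_of_nonneg_right hmain (hE _).le
  have g2 : (A.card : ℝ) * En A n ≤ En A (n + 1) := by
    rw [hqE n, ← hq0]
    exact mul_le_mul_of_nonneg_right (hmono (Nat.zero_le n)) (hE _).le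
  refine ⟨by exact_mod_cast g1, ?_⟩
  have g3 : (c : ℝ) ^ 2 * A.card ^ 2 * En A n ≤ En A (n + 2) := by
    calc (c : ℝ) ^ 2 * A.card ^ 2 * En A n = (c : ℝ) ^ 2 * A.card * (A.card * En A n) := by ring
      _ ≤ (c : ℝ) ^ 2 * A.card * En A (n + 1) := mul_le_mul_of_nonneg_left g2 hcK
      _ ≤ En A (n + 2) := g1
  exact_mod_cast g3

end Pool.Agent.helper25.SX
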