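import Pool.Agent.helper25.SX.En0

set_option autoImplicit false

/-!
# Module EnR: pairs of tuples, one with a repeated element: `rep`

`share`: fix the common value `u ∈ A`, remove the coordinates `i`, `j` (`Fin.succAbove`,
`Fin.insertNthEquiv` or `Fin.removeNth`): `card A * En A (n + 1)`.
`rep`: `D = #{(X, Y) | X i = X j, ∑ X = ∑ Y}`. `cs_count` with the set of the `X` with `X i = X j`, and all
`Y`: `D ^ 2 ≤ N * En A (n + 2)`, `N = #{(X, X') | X i = X j, X' i = X' j, ∑ X = ∑ X'}`; for fixed values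
`u = X i = X j`, `u' = X' i = X' j` the rest are tuples `Z, Z'` of length `n` with
`∑ Z + 2 u = ∑ Z' + 2 u'`, at most `En A n` pairs by `cs_count` (`#{∑ Z + 2 u = ∑ Z' + 2 u'} ^ 2 ≤ En ^ 2`).
So `N ≤ K ^ 2 En A n`.
`bad_le`: with `m = n + 2` and `c = 14 m ^ 2`: `share ≤ En / c ^ 2 ≤ En / c`, `rep ≤ En / c` (from
`D ^ 2 ≤ K ^ 2 E_n E_(n+2) ≤ (E_(n+2) / c) ^ 2`); at most `m ^ 2` pairs `(i, j)` for `share` and `m ^ 2 / 2` for
each of the two kinds of `rep`, sum `≤ 2 m ^ 2 En / c = En / 7`.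
-/

namespace Pool.Agent.helper25.SX

private lemma mem_tup' {A : Finset ℕ} {n : ℕ} {x : Fin n → ℕ} : x ∈ Tup A n ↔ ∀ i, x i ∈ A := by
  simp [Tup]

/-- pairs of tuples with shifted sums -/
private lemma shift_count (A : Finset ℕ) (n u v : ℕ) :
    ((Tup A n ×ˢ Tup A n).filter fun p => ∑ i, p.1 i + 2 * u = ∑ i, p.2 i + 2 * v).card ≤
      En A n := by
  classical
  have h := cs_count (Tup A n) (Tup A n) (fun x => ((∑ i, x i + 2 * u : ℕ) : ℤ))
    (fun x => ((∑ i, x i + 2 * v : ℕ) : ℤ))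
  simp only [Nat.cast_inj, Nat.add_right_cancel_iff] at h
  rw [← sq] at h
  exact (Nat.pow_le_pow_iff_left (by norm_num)).1 h

private lemma two_rep {A : Finset ℕ} {n : ℕ} {i j : Fin (n + 2)} (hij : i ≠ j) :
    ((((Tup A (n + 2)).filter fun x => x i = x j) ×ˢ
        ((Tup A (n + 2)).filter fun x => x i = x j)).filter fun p =>
      ∑ i, p.1 i = ∑ i, p.2 i).card ≤ A.card ^ 2 * En A n := by
  classical
  obtain ⟨j', rfl⟩ : ∃ j' : Fin (n + 1), i.succAbove j' = j := by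
    rcases Fin.eq_self_or_eq_succAbove i j with h | ⟨l, h⟩
    · exact absurd h.symm hij
    · exact ⟨l, h.symm⟩
  set S := ((((Tup A (n + 2)).filter fun x => x i = x (i.succAbove j')) ×ˢ
        ((Tup A (n + 2)).filter fun x => x i = x (i.succAbove j'))).filter fun p =>
      ∑ i, p.1 i = ∑ i, p.2 i) with hS
  have hmem : ∀ p, p ∈ S ↔ (((∀ a, p.1 a ∈ A) ∧ p.1 i = p.1 (i.succAbove j')) ∧
      ((∀ a, p.2 a ∈ A) ∧ p.2 i = p.2 (i.succAbove j'))) ∧ ∑ i, p.1 i = ∑ i, p.2 i := by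
    intro p
    rw [hS, Finset.mem_filter, Finset.mem_product, Finset.mem_filter, Finset.mem_filter,
      mem_tup', mem_tup']
  have hsum : ∀ X : Fin (n + 2) → ℕ, X i = X (i.succAbove j') →
      ∑ a, X a = ∑ k, X (i.succAbove (j'.succAbove k)) + 2 * X i := by
    intro X hX
    rw [Fin.sum_univ_succAbove _ i, Fin.sum_univ_succAbove _ j', ← hX]
    ring
  rw [Finset.card_eq_sum_card_fiberwise (s := S) (t := A ×ˢ A) (f := fun p => (p.1 i, p.2 i))]
  · calc ∑ t ∈ A ×ˢ A, (S.filter fun p => (p.1 i, p.2 i) = t).card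
        ≤ ∑ _t ∈ A ×ˢ A, En A n := ?_
      _ = A.card ^ 2 * En A n := by
        rw [Finset.sum_const, Finset.card_product, smul_eq_mul, sq]
    refine Finset.sum_le_sum fun t _ => ?_
    refine le_trans ?_ (shift_count A n t.1 t.2)
    refine Finset.card_le_card_of_injOn
      (fun p => ((fun k => p.1 (i.succAbove (j'.succAbove k))),
        (fun k => p.2 (i.succAbove (j'.succAbove k))))) ?_ ?_
    · rintro p hp
      rw [Finset.mem_coe, Finset.mem_filter, hmem] at hp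
      obtain ⟨⟨⟨⟨h1, h2⟩, h3, h4⟩, h5⟩, h6⟩ := hp
      rw [Finset.mem_coe, Finset.mem_filter, Finset.mem_product, mem_tup', mem_tup']
      refine ⟨⟨fun k => h1 _, fun k => h3 _⟩, ?_⟩
      rw [hsum _ h2, hsum _ h4] at h5
      rw [← h6]
      exact h5
    · rintro ⟨X, Y⟩ hp ⟨X', Y'⟩ hp' he
      rw [Finset.mem_coe, Finset.mem_filter, hmem] at hp hp'
      obtain ⟨⟨⟨⟨h1, h2⟩, h3, h4⟩, h5⟩, h6⟩ := hp
      obtain ⟨⟨⟨⟨h1', h2'⟩, h3', h4'⟩, h5'⟩, h6'⟩ := hp'
      have h7 := h6.trans h6'.symm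
      simp only [Prod.mk.injEq] at he h7
      obtain ⟨e1, e2⟩ := h7
      obtain ⟨e3, e4⟩ := he
      simp only at h2 h4 h2' h4'
      rw [Prod.mk.injEq]
      constructor
      · funext k
        rcases Fin.eq_self_or_eq_succAbove i k with rfl | ⟨l, rfl⟩
        · exact e1
        · rcases Fin.eq_self_or_eq_succAbove j' l with rfl | ⟨m, rfl⟩
          · rw [← h2, ← h2', e1]
          · exact congrFun e3 m
      · funext k
        rcases Fin.eq_self_or_eq_succAbove i k with rfl | ⟨l, rfl⟩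
        · exact e2
        · rcases Fin.eq_self_or_eq_succAbove j' l with rfl | ⟨m, rfl⟩
          · rw [← h4, ← h4', e2]
          · exact congrFun e4 m
  · intro p hp
    rw [Finset.mem_coe, hmem] at hp
    rw [Finset.mem_coe, Finset.mem_product]
    exact ⟨hp.1.1.1 i, hp.1.2.1 i⟩

theorem rep {A : Finset ℕ} {n : ℕ} {i j : Fin (n + 2)} (hij : i ≠ j) :
    ((Tup A (n + 2) ×ˢ Tup A (n + 2)).filter fun p =>
      ∑ i, p.1 i = ∑ i, p.2 i ∧ p.1 i = p.1 j).card ^ 2 ≤
      A.card ^ 2 * En A n * En A (n + 2) := by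
  classical
  have h := cs_count ((Tup A (n + 2)).filter fun x => x i = x j) (Tup A (n + 2))
    (fun x => ((∑ i, x i : ℕ) : ℤ)) (fun x => ((∑ i, x i : ℕ) : ℤ))
  simp only [Nat.cast_inj] at h
  have h1 : ((Tup A (n + 2) ×ˢ Tup A (n + 2)).filter fun p =>
      ∑ i, p.1 i = ∑ i, p.2 i ∧ p.1 i = p.1 j) =
      ((((Tup A (n + 2)).filter fun x => x i = x j) ×ˢ Tup A (n + 2)).filter fun p =>
        ∑ i, p.1 i = ∑ i, p.2 i) := by
    ext p
    simp only [Finset.mem_filter, Finset.mem_product]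
    tauto
  rw [h1]
  refine h.trans ?_
  exact Nat.mul_le_mul_right _ (two_rep hij)

end Pool.Agent.helper25.SX
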