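import Pool.Agent.helper25.SX.En0

set_option autoImplicit false

/-!
# Module EnS: pairs of tuples with a common element: `share`

`share`: fix the common value `u ∈ A`, remove the coordinates `i`, `j` (`Fin.succAbove`,
`Fin.insertNthEquiv` or `Fin.removeNth`): `card A * En A (n + 1)`.
`rep`: `D = #{(X, Y) | X i = X j, ∑ X = ∑ Y}`. `cs_count` with the set of the `X` with `X i = X j`, and all
`Y`: `D ^ 2 ≤ N * En A (n + 2)`, `N = #{(X, X') | X i = X j, X' i = X' j, ∑ X = ∑ X'}`; for fixed values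
`u = X i = X j`, `u' = X' i = X' j` the rest are tuples `Z, Z'` of length `n` with
`∑ Z + 2 u = ∑ Z' + 2 u'`, at most `En A n` pairs by `cs_count` (`#{∑ Z + 2 u = ∑ Z' + 2 u'} ^ 2 ≤ En ^ 2`).
So `N ≤ K ^ 2 En A n`.
`bad_le`: with `m = n + 2` and `c = 14 m ^ 2`: `share ≤ En / c ^ 2 ≤ En / c`, `rep ≤ En / c` (from
`D ^ 2 ≤ K ^ 2 E_n E_(n+2) ≤ (E_(n+2) / c) ^ 2`); at most `m ^ 2` pairs `(i, j)` for `share` and `m ^ 2 / 2` for
each of the two kinds of `rep`, sum `≤ 2 m ^ 2 En / c = En / 7`.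
-/

namespace Pool.Agent.helper25.SX

theorem share {A : Finset ℕ} {n : ℕ} (i j : Fin (n + 2)) :
    ((Tup A (n + 2) ×ˢ Tup A (n + 2)).filter fun p =>
      ∑ i, p.1 i = ∑ i, p.2 i ∧ p.1 i = p.2 j).card ≤ A.card * En A (n + 1) := by
  classical
  unfold En
  rw [← Finset.card_product]
  have hT : ∀ {m : ℕ} {X : Fin m → ℕ}, X ∈ Tup A m ↔ ∀ a, X a ∈ A := by
    intro m X
    simp [Tup]
  refine Finset.card_le_card_of_injOn
    (fun p => (p.1 i, ((fun k => p.1 (i.succAbove k)), (fun k => p.2 (j.succAbove k))))) ?_ ?_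
  · rintro ⟨X, Y⟩ hp
    rw [Finset.mem_coe, Finset.mem_filter, Finset.mem_product] at hp
    obtain ⟨⟨h1, h2⟩, h3, h4⟩ := hp
    simp only at h1 h2 h3 h4
    rw [hT] at h1 h2
    rw [Finset.mem_coe, Finset.mem_product, Finset.mem_filter, Finset.mem_product]
    refine ⟨h1 i, ⟨hT.2 fun k => h1 _, hT.2 fun k => h2 _⟩, ?_⟩
    rw [Fin.sum_univ_succAbove _ i, Fin.sum_univ_succAbove _ j, h4] at h3
    exact Nat.add_left_cancel h3
  · rintro ⟨X, Y⟩ hp ⟨X', Y'⟩ hp' he
    rw [Finset.mem_coe, Finset.mem_filter] at hp hp'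
    have h4 : X i = Y j := hp.2.2
    have h4' : X' i = Y' j := hp'.2.2
    simp only [Prod.mk.injEq] at he
    obtain ⟨e1, e2, e3⟩ := he
    rw [Prod.mk.injEq]
    constructor
    · funext k
      rcases Fin.eq_self_or_eq_succAbove i k with rfl | ⟨l, rfl⟩
      · exact e1
      · exact congrFun e2 l
    · funext k
      rcases Fin.eq_self_or_eq_succAbove j k with rfl | ⟨l, rfl⟩
      · rw [← h4, ← h4', e1]
      · exact congrFun e3 l

end Pool.Agent.helper25.SX
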