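import Pool.Agent.helper25.SX.EnA
import Pool.Agent.helper25.SX.EnS
import Pool.Agent.helper25.SX.EnR

set_option autoImplicit false

/-!
# Module EnB (`bad_le`): pairs of tuples with a common element or a repeated element are rare

`share`: fix the common value `u ∈ A`, remove the coordinates `i`, `j` (`Fin.succAbove`,
`Fin.insertNthEquiv` or `Fin.removeNth`): `card A * En A (n + 1)`.
`rep`: `D = #{(X, Y) | X i = X j, ∑ X = ∑ Y}`. `cs_count` with the set of the `X` with `X i = X j`, and all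
`Y`: `D ^ 2 ≤ N * En A (n + 2)`, `N = #{(X, X') | X i = X j, X' i = X' j, ∑ X = ∑ X'}`; for fixed values
`u = X i = X j`, `u' = X' i = X' j` the rest are tuples `Z, Z'` of length `n` with
`∑ Z + 2 u = ∑ Z' + 2 u'`, at most `En A n` pairs by `cs_count` (`#{∑ Z + 2 u = ∑ Z' + 2 u'} ^ 2 ≤ En ^ 2`).
So `N ≤ K ^ 2 En A n`.
`bad_le`: with `m = n + 2` and `c = 14 m ^ 2`: `share ≤ En / c ^ 2 ≤ En / c`, `rep ≤ En / c` (from
`D ^ 2 ≤ K ^ 2 E_n E_(n+2) ≤ (E_(n+2) / c) ^ 2`); at most `m ^ 2` pairs `(i, j)` for `share` and `m ^ 2 / 2` for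
each of the two kinds of `rep`, sum `≤ 2 m ^ 2 En / c = En / 7`.
-/

namespace Pool.Agent.helper25.SX

/-- bad pairs: a common element, or a repeated element -/
def Bad {n : ℕ} (X Y : Fin n → ℕ) : Prop :=
  (∃ i j, X i = Y j) ∨ ¬ Function.Injective X ∨ ¬ Function.Injective Y

private lemma c_mul_le {c x K E1 E : ℕ} (hc : 1 ≤ c) (h : x ≤ K * E1) (h1 : c ^ 2 * K * E1 ≤ E) :
    c * x ≤ E := by
  calc c * x ≤ c * (c * x) := Nat.le_mul_of_pos_left _ hc
    _ = c ^ 2 * x := by ring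
    _ ≤ c ^ 2 * (K * E1) := Nat.mul_le_mul_left _ h
    _ = c ^ 2 * K * E1 := by ring
    _ ≤ E := h1

private lemma c_mul_le' {c D K E0 E : ℕ} (h : D ^ 2 ≤ K ^ 2 * E0 * E)
    (h1 : c ^ 2 * K ^ 2 * E0 ≤ E) : c * D ≤ E := by
  have h2 : (c * D) ^ 2 ≤ E ^ 2 := by
    calc (c * D) ^ 2 = c ^ 2 * D ^ 2 := by ring
      _ ≤ c ^ 2 * (K ^ 2 * E0 * E) := Nat.mul_le_mul_left _ h
      _ = (c ^ 2 * K ^ 2 * E0) * E := by ring
      _ ≤ E * E := Nat.mul_le_mul_right _ h1
      _ = E ^ 2 := by ring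
  exact (Nat.pow_le_pow_iff_left (by norm_num)).1 h2

private lemma two_mul_card_lt (m : ℕ) :
    2 * (Finset.univ.filter fun q : Fin m × Fin m => q.1 < q.2).card ≤ m ^ 2 := by
  have h1 : (Finset.univ.filter fun q : Fin m × Fin m => q.2 < q.1).card =
      (Finset.univ.filter fun q : Fin m × Fin m => q.1 < q.2).card := by
    refine Finset.card_bij (fun q _ => q.swap) ?_ ?_ ?_
    · intro q hq
      simpa using hq
    · intro q _ q' _ h
      exact Prod.swap_injective h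
    · intro q hq
      exact ⟨q.swap, by simpa using hq, by simp⟩
  have h2 : Disjoint (Finset.univ.filter fun q : Fin m × Fin m => q.1 < q.2)
      (Finset.univ.filter fun q : Fin m × Fin m => q.2 < q.1) := by
    rw [Finset.disjoint_filter]
    intro q _ h h'
    exact lt_asymm h h'
  have h3 := Finset.card_union_of_disjoint h2
  have h4 : ((Finset.univ.filter fun q : Fin m × Fin m => q.1 < q.2) ∪
      (Finset.univ.filter fun q : Fin m × Fin m => q.2 < q.1)).card ≤ m ^ 2 := by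
    refine le_trans (Finset.card_le_univ _) ?_
    simp [sq]
  omega

open Classical in
theorem bad_le {A : Finset ℕ} {a L n : ℕ} (hA : ∀ x ∈ A, a ≤ x ∧ x ≤ a + L)
    (hK : ((14 * (n + 2) ^ 2) ^ 2) ^ (n + 2) * ((n + 2) * L + 1) ≤ A.card ^ (n + 2)) :
    7 * ((Tup A (n + 2) ×ˢ Tup A (n + 2)).filter fun p =>
      ∑ i, p.1 i = ∑ i, p.2 i ∧ Bad p.1 p.2).card ≤ En A (n + 2) := by
  have hc : 1 ≤ 14 * (n + 2) ^ 2 := by
    have : 0 < (n + 2) ^ 2 := by positivity
    omega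
  obtain ⟨r1, r2⟩ := en_ratio hA hc hK
  set c : ℕ := 14 * (n + 2) ^ 2 with hcdef
  set E : ℕ := En A (n + 2) with hE
  set T := Tup A (n + 2) ×ˢ Tup A (n + 2) with hT
  set F : Fin (n + 2) → Fin (n + 2) → Finset ((Fin (n + 2) → ℕ) × (Fin (n + 2) → ℕ)) :=
    fun i j => T.filter fun p => ∑ i, p.1 i = ∑ i, p.2 i ∧ p.1 i = p.2 j with hF
  set G : Fin (n + 2) → Fin (n + 2) → Finset ((Fin (n + 2) → ℕ) × (Fin (n + 2) → ℕ)) :=
    fun i j => T.filter fun p => ∑ i, p.1 i = ∑ i, p.2 i ∧ p.1 i = p.1 j with hG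
  set H : Fin (n + 2) → Fin (n + 2) → Finset ((Fin (n + 2) → ℕ) × (Fin (n + 2) → ℕ)) :=
    fun i j => T.filter fun p => ∑ i, p.1 i = ∑ i, p.2 i ∧ p.2 i = p.2 j with hH
  have cF : ∀ i j, c * (F i j).card ≤ E := fun i j => c_mul_le hc (share i j) r1
  have cG : ∀ i j, i ≠ j → c * (G i j).card ≤ E := fun i j hij => c_mul_le' (rep hij) r2
  have cH : ∀ i j, i ≠ j → c * (H i j).card ≤ E := by
    intro i j hij
    have h1 : (H i j).card ≤ (G i j).card := by
      refine Finset.card_le_card_of_injOn Prod.swap ?_ (Prod.swap_injective.injOn)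
      rintro ⟨X, Y⟩ hp
      rw [Finset.mem_coe, hH, Finset.mem_filter, hT, Finset.mem_product] at hp
      rw [Finset.mem_coe, hG, Finset.mem_filter, hT, Finset.mem_product]
      exact ⟨⟨hp.1.2, hp.1.1⟩, hp.2.1.symm, hp.2.2⟩
    exact le_trans (Nat.mul_le_mul_left _ h1) (cG i j hij)
  set P := Finset.univ.filter fun q : Fin (n + 2) × Fin (n + 2) => q.1 < q.2 with hP
  set B := T.filter fun p => ∑ i, p.1 i = ∑ i, p.2 i ∧ Bad p.1 p.2 with hB
  have hsub : B ⊆ (Finset.univ.biUnion fun q : Fin (n + 2) × Fin (n + 2) => F q.1 q.2) ∪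
      ((P.biUnion fun q => G q.1 q.2) ∪ (P.biUnion fun q => H q.1 q.2)) := by
    rintro ⟨X, Y⟩ hp
    rw [hB, Finset.mem_filter] at hp
    obtain ⟨h1, h2, h3⟩ := hp
    rw [Finset.mem_union, Finset.mem_union]
    rcases h3 with ⟨i, j, h⟩ | h | h
    · left
      rw [Finset.mem_biUnion]
      exact ⟨(i, j), Finset.mem_univ _, Finset.mem_filter.2 ⟨h1, h2, h⟩⟩
    · right; left
      rw [Function.Injective] at h
      push Not at h
      obtain ⟨i, j, h, hij⟩ := h
      rw [Finset.mem_biUnion]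
      rcases lt_or_gt_of_ne hij with h' | h'
      · exact ⟨(i, j), by simpa [hP] using h', Finset.mem_filter.2 ⟨h1, h2, h⟩⟩
      · exact ⟨(j, i), by simpa [hP] using h', Finset.mem_filter.2 ⟨h1, h2, h.symm⟩⟩
    · right; right
      rw [Function.Injective] at h
      push Not at h
      obtain ⟨i, j, h, hij⟩ := h
      rw [Finset.mem_biUnion]
      rcases lt_or_gt_of_ne hij with h' | h'
      · exact ⟨(i, j), by simpa [hP] using h', Finset.mem_filter.2 ⟨h1, h2, h⟩⟩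
      · exact ⟨(j, i), by simpa [hP] using h', Finset.mem_filter.2 ⟨h1, h2, h.symm⟩⟩
  have hcard : B.card ≤ (∑ q : Fin (n + 2) × Fin (n + 2), (F q.1 q.2).card) +
      ((∑ q ∈ P, (G q.1 q.2).card) + ∑ q ∈ P, (H q.1 q.2).card) := by
    refine le_trans (Finset.card_le_card hsub) ?_
    refine le_trans (Finset.card_union_le _ _) ?_
    refine Nat.add_le_add Finset.card_biUnion_le ?_
    refine le_trans (Finset.card_union_le _ _) ?_
    exact Nat.add_le_add Finset.card_biUnion_le Finset.card_biUnion_le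
  have s1 : c * ∑ q : Fin (n + 2) × Fin (n + 2), (F q.1 q.2).card ≤ (n + 2) ^ 2 * E := by
    rw [Finset.mul_sum]
    refine le_trans (Finset.sum_le_card_nsmul _ _ E fun q _ => cF q.1 q.2) ?_
    simp [sq]
  have hne : ∀ q ∈ P, q.1 ≠ q.2 := by
    intro q hq
    rw [hP, Finset.mem_filter] at hq
    exact ne_of_lt hq.2
  have s2 : c * ∑ q ∈ P, (G q.1 q.2).card ≤ P.card * E := by
    rw [Finset.mul_sum]
    refine le_trans (Finset.sum_le_card_nsmul _ _ E fun q hq => cG q.1 q.2 (hne q hq)) ?_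
    simp
  have s3 : c * ∑ q ∈ P, (H q.1 q.2).card ≤ P.card * E := by
    rw [Finset.mul_sum]
    refine le_trans (Finset.sum_le_card_nsmul _ _ E fun q hq => cH q.1 q.2 (hne q hq)) ?_
    simp
  have hPc : 2 * P.card ≤ (n + 2) ^ 2 := two_mul_card_lt (n + 2)
  have hfin : (n + 2) ^ 2 * (2 * (7 * B.card)) ≤ (n + 2) ^ 2 * (2 * E) := by
    calc (n + 2) ^ 2 * (2 * (7 * B.card)) = c * B.card := by rw [hcdef]; ring
      _ ≤ c * ((∑ q : Fin (n + 2) × Fin (n + 2), (F q.1 q.2).card) +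
          ((∑ q ∈ P, (G q.1 q.2).card) + ∑ q ∈ P, (H q.1 q.2).card)) :=
        Nat.mul_le_mul_left _ hcard
      _ = c * (∑ q : Fin (n + 2) × Fin (n + 2), (F q.1 q.2).card) +
          (c * (∑ q ∈ P, (G q.1 q.2).card) + c * ∑ q ∈ P, (H q.1 q.2).card) := by ring
      _ ≤ (n + 2) ^ 2 * E + (P.card * E + P.card * E) := by
        exact Nat.add_le_add s1 (Nat.add_le_add s2 s3)
      _ = ((n + 2) ^ 2 + 2 * P.card) * E := by ring
      _ ≤ ((n + 2) ^ 2 + (n + 2) ^ 2) * E := by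
        exact Nat.mul_le_mul_right _ (Nat.add_le_add_left hPc _)
      _ = (n + 2) ^ 2 * (2 * E) := by ring
  have h5 := Nat.le_of_mul_le_mul_left hfin (by positivity)
  omega

end Pool.Agent.helper25.SX
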