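import Pool.Agent.helper25.SX.EnB

set_option autoImplicit false

/-!
# Module EnC: four disjoint subsets with equal sums

`pick4` (abstract): a finite set `R` and a relation `bad` with `7 b ≤ r ^ 2`, `r = card R > 0`,
`b = #{(X, Y) ∈ R ^ 2 | bad X Y}`: the number of quadruples of `R ^ 4` with a bad pair `(X_i, X_k)`, `i < k`, is
at most `6 b r ^ 2 < r ^ 4`.
`energy`: `n ≥ 2`: for each value `t` of the sum let `R_t` be the set of tuples with sum `t`, `b_t` the number of
bad pairs in `R_t`; `∑_t 7 b_t ≤ ∑_t r_t ^ 2` (`bad_le`), so some `t` has `r_t > 0` and `7 b_t ≤ r_t ^ 2` (if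
`7 b_t > r_t ^ 2` for all `t` with `r_t > 0`, sum up). `pick4`; the images of the four tuples are the sets.
For `n = 1`: `196 (L + 1) ≤ card A ≤ L + 1` is impossible.
-/

namespace Pool.Agent.helper25.SX

open Classical in
private lemma pick4_aux {α : Type} (R : Finset α) (bad : α → α → Prop)
    (f : (α × α) × (α × α) → (α × α) × (α × α)) (hf : Function.Injective f)
    (hT : ∀ q ∈ (R ×ˢ R) ×ˢ (R ×ˢ R), f q ∈ (R ×ˢ R) ×ˢ (R ×ˢ R)) :
    (((R ×ˢ R) ×ˢ (R ×ˢ R)).filter fun q => bad (f q).1.1 (f q).1.2).card ≤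
      ((R ×ˢ R).filter fun p => bad p.1 p.2).card * R.card ^ 2 := by
  have h1 : ((R ×ˢ R).filter fun p => bad p.1 p.2).card * R.card ^ 2 =
      (((R ×ˢ R).filter fun p => bad p.1 p.2) ×ˢ (R ×ˢ R)).card := by
    rw [Finset.card_product, Finset.card_product R R, sq]
  rw [h1]
  refine Finset.card_le_card_of_injOn f ?_ hf.injOn
  intro q hq
  rw [Finset.mem_coe, Finset.mem_filter] at hq
  have h2 := hT q hq.1
  rw [Finset.mem_product] at h2
  rw [Finset.mem_coe, Finset.mem_product, Finset.mem_filter]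
  exact ⟨⟨h2.1, hq.2⟩, h2.2⟩

open Classical in
theorem pick4 {α : Type} (R : Finset α) (bad : α → α → Prop) (hR : R.Nonempty)
    (h : 7 * ((R ×ˢ R).filter fun p => bad p.1 p.2).card ≤ R.card ^ 2) :
    ∃ X : Fin 4 → α, (∀ i, X i ∈ R) ∧ ∀ i k, i < k → ¬ bad (X i) (X k) := by
  by_contra hcon
  push Not at hcon
  set b : ℕ := ((R ×ˢ R).filter fun p => bad p.1 p.2).card with hb
  set T := (R ×ˢ R) ×ˢ (R ×ˢ R) with hT
  have a01 := pick4_aux R bad (fun q => ((q.1.1, q.1.2), (q.2.1, q.2.2)))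
    (by rintro ⟨⟨a, b⟩, c, d⟩ ⟨⟨a', b'⟩, c', d'⟩ h; simp only [Prod.mk.injEq] at h ⊢; tauto)
    (by rintro ⟨⟨a, b⟩, c, d⟩ h; simp only [Finset.mem_product] at h ⊢; tauto)
  have a23 := pick4_aux R bad (fun q => ((q.2.1, q.2.2), (q.1.1, q.1.2)))
    (by rintro ⟨⟨a, b⟩, c, d⟩ ⟨⟨a', b'⟩, c', d'⟩ h; simp only [Prod.mk.injEq] at h ⊢; tauto)
    (by rintro ⟨⟨a, b⟩, c, d⟩ h; simp only [Finset.mem_product] at h ⊢; tauto)
  have a02 := pick4_aux R bad (fun q => ((q.1.1, q.2.1), (q.1.2, q.2.2)))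
    (by rintro ⟨⟨a, b⟩, c, d⟩ ⟨⟨a', b'⟩, c', d'⟩ h; simp only [Prod.mk.injEq] at h ⊢; tauto)
    (by rintro ⟨⟨a, b⟩, c, d⟩ h; simp only [Finset.mem_product] at h ⊢; tauto)
  have a03 := pick4_aux R bad (fun q => ((q.1.1, q.2.2), (q.1.2, q.2.1)))
    (by rintro ⟨⟨a, b⟩, c, d⟩ ⟨⟨a', b'⟩, c', d'⟩ h; simp only [Prod.mk.injEq] at h ⊢; tauto)
    (by rintro ⟨⟨a, b⟩, c, d⟩ h; simp only [Finset.mem_product] at h ⊢; tauto)
  have a12 := pick4_aux R bad (fun q => ((q.1.2, q.2.1), (q.1.1, q.2.2)))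
    (by rintro ⟨⟨a, b⟩, c, d⟩ ⟨⟨a', b'⟩, c', d'⟩ h; simp only [Prod.mk.injEq] at h ⊢; tauto)
    (by rintro ⟨⟨a, b⟩, c, d⟩ h; simp only [Finset.mem_product] at h ⊢; tauto)
  have a13 := pick4_aux R bad (fun q => ((q.1.2, q.2.2), (q.1.1, q.2.1)))
    (by rintro ⟨⟨a, b⟩, c, d⟩ ⟨⟨a', b'⟩, c', d'⟩ h; simp only [Prod.mk.injEq] at h ⊢; tauto)
    (by rintro ⟨⟨a, b⟩, c, d⟩ h; simp only [Finset.mem_product] at h ⊢; tauto)
  rw [← hT, ← hb] at a01 a23 a02 a03 a12 a13
  dsimp only at a01 a23 a02 a03 a12 a13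
  have hsub : T ⊆ (T.filter fun q => bad q.1.1 q.1.2) ∪ ((T.filter fun q => bad q.2.1 q.2.2) ∪
      ((T.filter fun q => bad q.1.1 q.2.1) ∪ ((T.filter fun q => bad q.1.1 q.2.2) ∪
      ((T.filter fun q => bad q.1.2 q.2.1) ∪ (T.filter fun q => bad q.1.2 q.2.2))))) := by
    rintro ⟨⟨x0, x1⟩, x2, x3⟩ hq
    have hq' := hq
    simp only [hT, Finset.mem_product] at hq'
    obtain ⟨i, k, hik, hbad⟩ := hcon ![x0, x1, x2, x3] (by
      intro i
      fin_cases i
      · exact hq'.1.1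
      · exact hq'.1.2
      · exact hq'.2.1
      · exact hq'.2.2)
    simp only [Finset.mem_union, Finset.mem_filter]
    fin_cases i <;> fin_cases k <;> simp at hik hbad <;> tauto
  have hcard := Finset.card_le_card hsub
  have u1 := Finset.card_union_le (T.filter fun q => bad q.1.1 q.1.2)
    ((T.filter fun q => bad q.2.1 q.2.2) ∪
      ((T.filter fun q => bad q.1.1 q.2.1) ∪ ((T.filter fun q => bad q.1.1 q.2.2) ∪
      ((T.filter fun q => bad q.1.2 q.2.1) ∪ (T.filter fun q => bad q.1.2 q.2.2)))))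
  have u2 := Finset.card_union_le (T.filter fun q => bad q.2.1 q.2.2)
      ((T.filter fun q => bad q.1.1 q.2.1) ∪ ((T.filter fun q => bad q.1.1 q.2.2) ∪
      ((T.filter fun q => bad q.1.2 q.2.1) ∪ (T.filter fun q => bad q.1.2 q.2.2))))
  have u3 := Finset.card_union_le (T.filter fun q => bad q.1.1 q.2.1)
      ((T.filter fun q => bad q.1.1 q.2.2) ∪
      ((T.filter fun q => bad q.1.2 q.2.1) ∪ (T.filter fun q => bad q.1.2 q.2.2)))
  have u4 := Finset.card_union_le (T.filter fun q => bad q.1.1 q.2.2)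
      ((T.filter fun q => bad q.1.2 q.2.1) ∪ (T.filter fun q => bad q.1.2 q.2.2))
  have u5 := Finset.card_union_le (T.filter fun q => bad q.1.2 q.2.1)
      (T.filter fun q => bad q.1.2 q.2.2)
  have hTc : T.card = R.card ^ 2 * R.card ^ 2 := by
    rw [hT, Finset.card_product, Finset.card_product, sq]
  have hr : 0 < R.card ^ 2 := by
    have := Finset.card_pos.2 hR
    positivity
  have h6 : R.card ^ 2 * R.card ^ 2 ≤ 6 * (b * R.card ^ 2) := by
    rw [← hTc]
    omega
  have h7 : R.card ^ 2 ≤ 6 * b := by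
    refine Nat.le_of_mul_le_mul_right ?_ hr
    calc R.card ^ 2 * R.card ^ 2 ≤ 6 * (b * R.card ^ 2) := h6
      _ = 6 * b * R.card ^ 2 := by ring
  omega

theorem energy {A : Finset ℕ} {a L n : ℕ} (hn : 1 ≤ n) (hA : ∀ x ∈ A, a ≤ x ∧ x ≤ a + L)
    (hK : (196 * n ^ 4) ^ n * (n * L + 1) ≤ A.card ^ n) :
    ∃ (B : Fin 4 → Finset ℕ) (S : ℕ), (∀ i, B i ⊆ A ∧ (B i).card = n ∧ ∑ x ∈ B i, x = S) ∧
      ∀ i k, i ≠ k → Disjoint (B i) (B k) := by
  classical
  obtain rfl | ⟨m, rfl⟩ : n = 1 ∨ ∃ m, n = m + 2 := by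
    rcases n with _ | _ | m
    · omega
    · exact Or.inl rfl
    · exact Or.inr ⟨m, rfl⟩
  · exfalso
    have h1 : A ⊆ Finset.Icc a (a + L) := fun x hx => Finset.mem_Icc.2 (hA x hx)
    have h2 := Finset.card_le_card h1
    rw [Nat.card_Icc] at h2
    simp only [one_pow, mul_one, pow_one, one_mul] at hK
    omega
  · set n := m + 2 with hn2
    have hAne : A.Nonempty := by
      rw [Finset.nonempty_iff_ne_empty]
      rintro rfl
      rw [Finset.card_empty, zero_pow (by omega)] at hK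
      have : 0 < (196 * n ^ 4) ^ n * (n * L + 1) := by positivity
      omega
    have hbad := bad_le (n := m) hA (by
      have e : (14 * (m + 2) ^ 2) ^ 2 = 196 * (m + 2) ^ 4 := by ring
      rw [e]
      exact hK)
    rw [← hn2] at hbad
    set V : Finset ℕ := (Tup A n).image fun x => ∑ i, x i with hV
    set Rt : ℕ → Finset (Fin n → ℕ) := fun t => (Tup A n).filter fun x => ∑ i, x i = t with hRt
    have hTne : (Tup A n).Nonempty := by
      obtain ⟨x, hx⟩ := hAne
      exact ⟨fun _ => x, by simpa [Tup] using hx⟩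
    have hVne : V.Nonempty := hTne.image _
    have hE : En A n = ∑ t ∈ V, (Rt t).card ^ 2 := by
      unfold En
      rw [Finset.card_eq_sum_card_fiberwise
        (f := fun p : (Fin n → ℕ) × (Fin n → ℕ) => ∑ i, p.1 i) (t := V)]
      · refine Finset.sum_congr rfl fun t _ => ?_
        rw [sq, ← Finset.card_product]
        congr 1
        ext ⟨x, y⟩
        simp only [hRt, Finset.mem_filter, Finset.mem_product]
        constructor
        · rintro ⟨⟨⟨hx, hy⟩, h1⟩, h2⟩
          exact ⟨⟨hx, h2⟩, hy, by rw [← h1]; exact h2⟩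
        · rintro ⟨⟨hx, h2⟩, hy, h3⟩
          exact ⟨⟨⟨hx, hy⟩, by rw [h2, h3]⟩, h2⟩
      · intro p hp
        rw [Finset.mem_coe, Finset.mem_filter, Finset.mem_product] at hp
        rw [Finset.mem_coe, hV]
        exact Finset.mem_image_of_mem _ hp.1.1
    have hB : ((Tup A n ×ˢ Tup A n).filter fun p =>
        ∑ i, p.1 i = ∑ i, p.2 i ∧ Bad p.1 p.2).card =
        ∑ t ∈ V, ((Rt t ×ˢ Rt t).filter fun p => Bad p.1 p.2).card := by
      rw [Finset.card_eq_sum_card_fiberwise
        (f := fun p : (Fin n → ℕ) × (Fin n → ℕ) => ∑ i, p.1 i) (t := V)]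
      · refine Finset.sum_congr rfl fun t _ => ?_
        congr 1
        ext ⟨x, y⟩
        simp only [hRt, Finset.mem_filter, Finset.mem_product]
        constructor
        · rintro ⟨⟨⟨hx, hy⟩, h1, hb⟩, h2⟩
          exact ⟨⟨⟨hx, h2⟩, hy, by rw [← h1]; exact h2⟩, hb⟩
        · rintro ⟨⟨⟨hx, h2⟩, hy, h3⟩, hb⟩
          exact ⟨⟨⟨hx, hy⟩, by rw [h2, h3], hb⟩, h2⟩
      · intro p hp
        rw [Finset.mem_coe, Finset.mem_filter, Finset.mem_product] at hp
        rw [Finset.mem_coe, hV]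
        exact Finset.mem_image_of_mem _ hp.1.1
    obtain ⟨t, htV, ht⟩ : ∃ t ∈ V,
        7 * ((Rt t ×ˢ Rt t).filter fun p => Bad p.1 p.2).card ≤ (Rt t).card ^ 2 := by
      by_contra hcon
      push Not at hcon
      have h1 := Finset.sum_lt_sum_of_nonempty hVne hcon
      rw [← Finset.mul_sum, ← hE] at h1
      rw [← hB] at h1
      exact absurd h1 (not_lt.2 hbad)
    have hRne : (Rt t).Nonempty := by
      rw [hV, Finset.mem_image] at htV
      obtain ⟨x, hx, hxt⟩ := htV
      exact ⟨x, Finset.mem_filter.2 ⟨hx, hxt⟩⟩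
    obtain ⟨X, hXR, hX⟩ := pick4 (Rt t) Bad hRne ht
    have hinj : ∀ i, Function.Injective (X i) := by
      intro i
      by_cases hi : i = 0
      · subst hi
        have h1 := hX 0 1 (by decide)
        unfold Bad at h1
        push Not at h1
        exact h1.2.1
      · have h1 := hX 0 i (Fin.pos_of_ne_zero hi)
        unfold Bad at h1
        push Not at h1
        exact h1.2.2
    have hdis : ∀ i k, i < k → Disjoint (Finset.univ.image (X i)) (Finset.univ.image (X k)) := by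
      intro i k hik
      have h1 := hX i k hik
      unfold Bad at h1
      push Not at h1
      rw [Finset.disjoint_left]
      intro x hx hx'
      rw [Finset.mem_image] at hx hx'
      obtain ⟨j, _, hj⟩ := hx
      obtain ⟨j', _, hj'⟩ := hx'
      exact h1.1 j j' (hj.trans hj'.symm)
    refine ⟨fun i => Finset.univ.image (X i), t, ?_, ?_⟩
    · intro i
      have h1 := Finset.mem_filter.1 (hXR i)
      refine ⟨?_, ?_, ?_⟩
      · intro x hx
        rw [Finset.mem_image] at hx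
        obtain ⟨j, _, rfl⟩ := hx
        have h2 := h1.1
        rw [Tup, Fintype.mem_piFinset] at h2
        exact h2 j
      · dsimp only
        rw [Finset.card_image_of_injective _ (hinj i), Finset.card_univ, Fintype.card_fin]
      · dsimp only
        rw [Finset.sum_image (fun x _ y _ h => hinj i h)]
        exact h1.2
    · intro i k hik
      rcases lt_or_gt_of_ne hik with h | h
      · exact hdis i k h
      · exact (hdis k i h).symm

end Pool.Agent.helper25.SX
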