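import Pool.Agent.helper25.SX.En0

set_option autoImplicit false

/-!
# Module EnLog: additive energies: `en_logconv` (rest: En0, EnA)

`Tup A n`: tuples of `n` elements of `A`. `En A n`: number of pairs of tuples with equal sums.
`cs_count` (Cauchy-Schwarz): with `a(t) = #{x ∈ X | f x = t}`, `b(t) = #{y ∈ Y | g y = t}`:
`#{(x, y) | f x = g y} = ∑ a(t) b(t)`, `#{(x, x') | f x = f x'} = ∑ a(t) ^ 2` (sum over the finite set of
values).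
`en_logconv`: `E_n = #{(z, (x, y)) | ∑ z = ∑ x - y}` with `z ∈ A ^ (n-1)`, `x ∈ A ^ n`, `y ∈ A` (move `y` to the
other side: `(z, y)` is a tuple of `A ^ n`, `Fin.cons`), `cs_count`; and
`#{((x, y), (x', y')) | ∑ x - y = ∑ x' - y'} = E_(n+1)` (`(x, y')`, `(x', y)` tuples of `A ^ (n+1)`). Values in
`ℤ`.
`en_lower`: `cs_count`-like: `(∑_t r(t)) ^ 2 ≤ (number of values) ∑ r(t) ^ 2`, the sums lie in an interval
of `n L + 1` integers.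
`en_ratio`: let `q k = E_(k+1) / E_k` (real numbers; `E_k ≥ 1` as `A` is not empty); by
`en_logconv` `q` is nondecreasing, `q 0 = K`. So `q (n-1) ^ n ≥ ∏_(k<n) q k = E_n ≥ K ^ (2n) / (nL+1) ≥
(c ^ 2 K) ^ n` if `K ^ n ≥ c ^ (2n) (nL+1)`; so `E_n ≥ c ^ 2 K E_(n-1)`. For `n ≥ 2` also
`E_(n-1) ≥ K E_(n-2)` (`q (n-2) ≥ q 0`), so `E_n ≥ c ^ 2 K ^ 2 E_(n-2)`.
-/

namespace Pool.Agent.helper25.SX

private lemma mem_tup' {A : Finset ℕ} {n : ℕ} {x : Fin n → ℕ} : x ∈ Tup A n ↔ ∀ i, x i ∈ A := by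
  simp [Tup]

private lemma cons_mem {A : Finset ℕ} {n : ℕ} {x : Fin n → ℕ} {a : ℕ} (ha : a ∈ A)
    (hx : ∀ i, x i ∈ A) (i : Fin (n + 1)) : (Fin.cons a x : Fin (n + 1) → ℕ) i ∈ A := by
  refine Fin.cases ?_ (fun j => ?_) i
  · simpa using ha
  · simpa using hx j

private lemma e1 (A : Finset ℕ) (n : ℕ) :
    ((Tup A n ×ˢ (Tup A (n + 1) ×ˢ A)).filter fun p =>
      ((∑ i, p.1 i : ℕ) : ℤ) = ((∑ i, p.2.1 i : ℕ) : ℤ) - (p.2.2 : ℤ)).card = En A (n + 1) := by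
  unfold En
  refine Finset.card_nbij'
    (i := fun p : (Fin n → ℕ) × ((Fin (n + 1) → ℕ) × ℕ) =>
      ((Fin.cons p.2.2 p.1 : Fin (n + 1) → ℕ), p.2.1))
    (j := fun p : (Fin (n + 1) → ℕ) × (Fin (n + 1) → ℕ) =>
      ((Fin.tail p.1 : Fin n → ℕ), (p.2, p.1 0))) ?_ ?_ ?_ ?_
  · rintro ⟨z, x, y⟩ h
    simp only [Finset.mem_filter, Finset.mem_product, Finset.mem_coe, mem_tup'] at h ⊢
    obtain ⟨⟨hz, hx, hy⟩, he⟩ := h
    refine ⟨⟨cons_mem hy hz, hx⟩, ?_⟩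
    rw [Fin.sum_univ_succ]
    simp only [Fin.cons_zero, Fin.cons_succ]
    zify
    push_cast at he
    linarith
  · rintro ⟨z, x⟩ h
    simp only [Finset.mem_filter, Finset.mem_product, Finset.mem_coe, mem_tup'] at h ⊢
    obtain ⟨⟨hz, hx⟩, he⟩ := h
    refine ⟨⟨fun i => hz i.succ, hx, hz 0⟩, ?_⟩
    rw [← he, Fin.sum_univ_succ (f := z)]
    simp only [Fin.tail]
    push_cast
    ring
  · rintro ⟨z, x, y⟩ _
    simp
  · rintro ⟨z, x⟩ _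
    simp

private lemma e3 (A : Finset ℕ) (n : ℕ) :
    (((Tup A (n + 1) ×ˢ A) ×ˢ (Tup A (n + 1) ×ˢ A)).filter fun p =>
      ((∑ i, p.1.1 i : ℕ) : ℤ) - (p.1.2 : ℤ) = ((∑ i, p.2.1 i : ℕ) : ℤ) - (p.2.2 : ℤ)).card =
      En A (n + 2) := by
  unfold En
  refine Finset.card_nbij'
    (i := fun p : ((Fin (n + 1) → ℕ) × ℕ) × ((Fin (n + 1) → ℕ) × ℕ) =>
      ((Fin.cons p.2.2 p.1.1 : Fin (n + 2) → ℕ), (Fin.cons p.1.2 p.2.1 : Fin (n + 2) → ℕ)))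
    (j := fun p : (Fin (n + 2) → ℕ) × (Fin (n + 2) → ℕ) =>
      (((Fin.tail p.1 : Fin (n + 1) → ℕ), p.2 0), ((Fin.tail p.2 : Fin (n + 1) → ℕ), p.1 0)))
    ?_ ?_ ?_ ?_
  · rintro ⟨⟨x, y⟩, x', y'⟩ h
    simp only [Finset.mem_filter, Finset.mem_product, Finset.mem_coe, mem_tup'] at h ⊢
    obtain ⟨⟨⟨hx, hy⟩, hx', hy'⟩, he⟩ := h
    refine ⟨⟨cons_mem hy' hx, cons_mem hy hx'⟩, ?_⟩
    rw [Fin.sum_univ_succ, Fin.sum_univ_succ (n := n + 1)]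
    simp only [Fin.cons_zero, Fin.cons_succ]
    zify
    push_cast at he
    linarith
  · rintro ⟨z, x⟩ h
    simp only [Finset.mem_filter, Finset.mem_product, Finset.mem_coe, mem_tup'] at h ⊢
    obtain ⟨⟨hz, hx⟩, he⟩ := h
    refine ⟨⟨⟨fun i => hz i.succ, hx 0⟩, fun i => hx i.succ, hz 0⟩, ?_⟩
    rw [Fin.sum_univ_succ (f := z), Fin.sum_univ_succ (f := x)] at he
    simp only [Fin.tail]
    zify at he
    push_cast
    linarith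
  · rintro ⟨⟨x, y⟩, x', y'⟩ _
    simp
  · rintro ⟨z, x⟩ _
    simp

theorem en_logconv (A : Finset ℕ) (n : ℕ) : En A (n + 1) ^ 2 ≤ En A n * En A (n + 2) := by
  have h := cs_count (Tup A n) (Tup A (n + 1) ×ˢ A) (fun z => ((∑ i, z i : ℕ) : ℤ))
    (fun p => ((∑ i, p.1 i : ℕ) : ℤ) - (p.2 : ℤ))
  rw [e1, e3] at h
  have e2 : ((Tup A n ×ˢ Tup A n).filter fun p : (Fin n → ℕ) × (Fin n → ℕ) =>
      ((∑ i, p.1 i : ℕ) : ℤ) = ((∑ i, p.2 i : ℕ) : ℤ)).card = En A n := by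
    unfold En
    simp only [Nat.cast_inj]
  rw [e2] at h
  exact h

end Pool.Agent.helper25.SX
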