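import Pool.Agent.helper25.SX.Defs
import Pool.Agent.helper25.SX.EnC

set_option autoImplicit false

/-!
# Module Exist: a heavy multiset has four equal elements, or four groups with equal sums

Let `κ = 20 * 3 ^ j`, `n = 9 ^ j`. Bucket `i`: the elements `μ ≤ M` with `Nat.sqrt (κ μ) = i`,
`i ≤ Nat.sqrt (κ M)`. Suppose `Avail M j ms` is false. Then every value `x`, `2 ≤ x ≤ M`, occurs at most three
times. For a bucket let `A` be the finset of its values. If `K0 ≤ card A`: let `x = min A`,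
`ω = max A - min A`; `κ ω ≤ 2 i` (`i ^ 2 ≤ κ μ < (i + 1) ^ 2`), so `ω ≤ 2 * Nat.sqrt (κ M) / κ = L`, and
`κ ^ 2 ω ^ 2 ≤ 4 i ^ 2 ≤ 4 κ x` gives `5 * 3 ^ j * ω ^ 2 ≤ x`. `energy` gives four disjoint subsets of `A` with
`n` elements and equal sums: `Avail`, contradiction (`∑ G i ≤ ms`: the union of disjoint subsets of
`ms.toFinset` has the multiset `val ≤ ms`). So each bucket has less than `K0` values, at most `3 K0`
elements, and `mass M ms ≤ 3 K0 (M + 1) (Nat.sqrt (κ M) + 1) < T0`.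
-/

namespace Pool.Agent.helper25.SX

open Pool.Agent.helper25.ST

private lemma ex_width {κ x y i : ℕ} (hx : Nat.sqrt (κ * x) = i) (hy : Nat.sqrt (κ * y) = i)
    (hxy : x ≤ y) : κ * (y - x) ≤ 2 * i := by
  have h1 : i * i ≤ κ * x := by
    rw [← hx]
    exact Nat.sqrt_le _
  have h2 : κ * y < (i + 1) * (i + 1) := by
    rw [← hy]
    exact Nat.lt_succ_sqrt _
  have h3 : (i + 1) * (i + 1) = i * i + 2 * i + 1 := by ring
  rw [h3] at h2
  obtain ⟨c, rfl⟩ := Nat.exists_eq_add_of_le hxy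
  rw [Nat.add_sub_cancel_left]
  rw [mul_add] at h2
  omega

private lemma ex_sq {κ t x w i : ℕ} (hκ : κ = 20 * t) (ht : 0 < t) (h1 : κ * w ≤ 2 * i)
    (h2 : i * i ≤ κ * x) : 5 * t * w ^ 2 ≤ x := by
  have h3 : (κ * w) * (κ * w) ≤ (2 * i) * (2 * i) := Nat.mul_le_mul h1 h1
  have h4 : κ * (κ * w ^ 2) ≤ κ * (4 * x) := by
    calc κ * (κ * w ^ 2) = (κ * w) * (κ * w) := by ring
      _ ≤ (2 * i) * (2 * i) := h3
      _ = 4 * (i * i) := by ring
      _ ≤ 4 * (κ * x) := Nat.mul_le_mul_left 4 h2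
      _ = κ * (4 * x) := by ring
  have h5 : κ * w ^ 2 ≤ 4 * x := Nat.le_of_mul_le_mul_left h4 (by omega)
  rw [hκ] at h5
  have h6 : 4 * (5 * t * w ^ 2) = 20 * t * w ^ 2 := by ring
  omega

private lemma ex_groups {B : Fin 4 → Finset ℕ} {ms : Multiset ℕ} (hB : ∀ i, B i ⊆ ms.toFinset)
    (hd : ∀ i k, i ≠ k → Disjoint (B i) (B k)) : ∑ i, (B i).val ≤ ms := by
  rw [Multiset.le_iff_count]
  intro a
  rw [Multiset.count_sum']
  by_cases ha : ∃ i, a ∈ B i
  · obtain ⟨i, hi⟩ := ha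
    have h1 : ∑ k, Multiset.count a (B k).val = Multiset.count a (B i).val := by
      apply Finset.sum_eq_single_of_mem i (Finset.mem_univ i)
      intro k _ hk
      rw [Multiset.count_eq_zero]
      intro h2
      exact (Finset.disjoint_left.mp (hd i k hk.symm)) hi h2
    rw [h1]
    have h3 : Multiset.count a (B i).val ≤ 1 := Multiset.nodup_iff_count_le_one.mp (B i).nodup a
    have h4 : a ∈ ms := Multiset.mem_toFinset.mp (hB i hi)
    have h5 : 1 ≤ Multiset.count a ms := Multiset.one_le_count_iff_mem.mpr h4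
    omega
  · have h1 : ∑ k, Multiset.count a (B k).val = 0 := by
      apply Finset.sum_eq_zero
      intro k _
      rw [Multiset.count_eq_zero]
      intro h2
      exact ha ⟨k, h2⟩
    rw [h1]
    exact Nat.zero_le _

private lemma ex_S1 {ms : Multiset ℕ} {M : ℕ} (h : ∀ μ ∈ ms, μ ≤ M) :
    S1 ms ≤ Multiset.card ms * (M + 1) := by
  induction ms using Multiset.induction_on with
  | empty => simp [S1_zero]
  | cons m ms ih =>
    have h1 := ih (fun μ hμ => h μ (Multiset.mem_cons_of_mem hμ))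
    have h2 := h m (Multiset.mem_cons_self m ms)
    rw [S1_cons, Multiset.card_cons, add_mul, one_mul]
    omega

theorem exist {M j K0 T0 : ℕ} (hK : (196 * (9 ^ j) ^ 4) ^ 9 ^ j *
      (9 ^ j * (2 * Nat.sqrt (20 * 3 ^ j * M) / (20 * 3 ^ j)) + 1) ≤ K0 ^ 9 ^ j)
    (hT : 3 * K0 * (M + 1) * (Nat.sqrt (20 * 3 ^ j * M) + 1) < T0)
    (ms : Multiset ℕ) (hms : ∀ μ ∈ ms, 2 ≤ μ) (h : T0 ≤ mass M ms) : Avail M j ms := by
  by_contra hA
  set κ := 20 * 3 ^ j with hκ
  have h3 : 0 < 3 ^ j := pow_pos (by norm_num) j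
  have hκ0 : 0 < κ := by rw [hκ]; omega
  have hn : 1 ≤ 9 ^ j := Nat.one_le_pow _ _ (by norm_num)
  set N := Nat.sqrt (κ * M) with hN
  set sm := ms.filter (fun μ => μ ≤ M) with hsm
  have hsle : sm ≤ ms := Multiset.filter_le _ _
  have hsM : ∀ μ ∈ sm, μ ≤ M := fun μ hμ => (Multiset.mem_filter.mp hμ).2
  have hK0 : 0 < K0 := by
    rcases Nat.eq_zero_or_pos K0 with h0 | h0
    · exfalso
      rw [h0, zero_pow (by omega)] at hK
      have h1 : 0 < (196 * (9 ^ j) ^ 4) ^ 9 ^ j := by positivity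
      have h2 := Nat.mul_pos h1 (Nat.succ_pos (9 ^ j * (2 * N / κ)))
      exact absurd h2 (not_lt.mpr hK)
    · exact h0
  have hcount : ∀ x ∈ sm.toFinset, sm.count x ≤ 3 := by
    intro x hx
    rw [Multiset.mem_toFinset] at hx
    by_contra hcon
    push Not at hcon
    apply hA
    left
    refine ⟨x, hms x (Multiset.mem_of_le hsle hx), hsM x hx, ?_⟩
    exact (Multiset.le_count_iff_replicate_le.mp hcon).trans hsle
  have hbucket : ∀ i ∈ Finset.range (N + 1),
      (sm.toFinset.filter fun μ => Nat.sqrt (κ * μ) = i).card ≤ K0 := by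
    intro i _
    set A := sm.toFinset.filter fun μ => Nat.sqrt (κ * μ) = i with hAdef
    by_contra hcon
    push Not at hcon
    have hne : A.Nonempty := by
      rw [← Finset.card_pos]
      omega
    have hmem : ∀ y ∈ A, y ∈ sm ∧ Nat.sqrt (κ * y) = i := by
      intro y hy
      rw [hAdef, Finset.mem_filter, Multiset.mem_toFinset] at hy
      exact hy
    set x := A.min' hne with hx
    set y := A.max' hne with hy
    have hxA : x ∈ A := Finset.min'_mem A hne
    have hyA : y ∈ A := Finset.max'_mem A hne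
    have hxy : x ≤ y := Finset.min'_le A y hyA
    have hw1 : κ * (y - x) ≤ 2 * i := ex_width (hmem x hxA).2 (hmem y hyA).2 hxy
    have hix : i * i ≤ κ * x := by
      rw [← (hmem x hxA).2]
      exact Nat.sqrt_le _
    have hiN : i ≤ N := by
      rw [← (hmem x hxA).2, hN]
      exact Nat.sqrt_le_sqrt (Nat.mul_le_mul_left κ (hsM x (hmem x hxA).1))
    have hwL : y - x ≤ 2 * N / κ := by
      rw [Nat.le_div_iff_mul_le hκ0, mul_comm]
      omega
    have hwsq : 5 * 3 ^ j * (y - x) ^ 2 ≤ x := ex_sq hκ h3 hw1 hix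
    have hrange : ∀ z ∈ A, x ≤ z ∧ z ≤ x + 2 * N / κ := by
      intro z hz
      have h1 : x ≤ z := Finset.min'_le A z hz
      have h2 : z ≤ y := Finset.le_max' A z hz
      exact ⟨h1, by omega⟩
    have hKA : (196 * (9 ^ j) ^ 4) ^ 9 ^ j * (9 ^ j * (2 * N / κ) + 1) ≤ A.card ^ 9 ^ j :=
      hK.trans (Nat.pow_le_pow_left hcon.le _)
    obtain ⟨B, S, hB, hBd⟩ := energy hn hrange hKA
    apply hA
    right
    refine ⟨x, y - x, S, fun i => (B i).val, hms x (Multiset.mem_of_le hsle (hmem x hxA).1), hwsq,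
      ?_, ?_, ?_⟩
    · have := hsM y (hmem y hyA).1
      omega
    · intro k
      refine ⟨(hB k).2.1, ?_, ?_⟩
      · rw [← (hB k).2.2]
        exact (B k).sum_val
      · intro μ hμ
        have h1 : μ ∈ A := (hB k).1 hμ
        have h2 : x ≤ μ := Finset.min'_le A μ h1
        have h3 : μ ≤ y := Finset.le_max' A μ h1
        exact ⟨h2, by omega⟩
    · refine ex_groups (fun k => ?_) hBd
      intro z hz
      rw [Multiset.mem_toFinset]
      exact Multiset.mem_of_le hsle (hmem z ((hB k).1 hz)).1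
  have hvals : sm.toFinset.card ≤ (N + 1) * K0 := by
    have hmaps : ∀ μ ∈ sm.toFinset, Nat.sqrt (κ * μ) ∈ Finset.range (N + 1) := by
      intro μ hμ
      rw [Multiset.mem_toFinset] at hμ
      rw [Finset.mem_range, Nat.lt_succ_iff, hN]
      exact Nat.sqrt_le_sqrt (Nat.mul_le_mul_left κ (hsM μ hμ))
    rw [Finset.card_eq_sum_card_fiberwise hmaps]
    calc ∑ b ∈ Finset.range (N + 1), (sm.toFinset.filter fun μ => Nat.sqrt (κ * μ) = b).card
        ≤ ∑ b ∈ Finset.range (N + 1), K0 := Finset.sum_le_sum hbucket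
      _ = (N + 1) * K0 := by rw [Finset.sum_const, Finset.card_range, smul_eq_mul]
  have hcard : Multiset.card sm ≤ 3 * ((N + 1) * K0) := by
    rw [← Multiset.toFinset_sum_count_eq]
    calc ∑ a ∈ sm.toFinset, sm.count a ≤ ∑ a ∈ sm.toFinset, 3 := Finset.sum_le_sum hcount
      _ = sm.toFinset.card * 3 := by rw [Finset.sum_const, smul_eq_mul]
      _ ≤ (N + 1) * K0 * 3 := Nat.mul_le_mul_right 3 hvals
      _ = 3 * ((N + 1) * K0) := by ring
  have hmass : mass M ms ≤ 3 * K0 * (M + 1) * (N + 1) := by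
    calc mass M ms = S1 sm := rfl
      _ ≤ Multiset.card sm * (M + 1) := ex_S1 hsM
      _ ≤ 3 * ((N + 1) * K0) * (M + 1) := Nat.mul_le_mul_right _ hcard
      _ = 3 * K0 * (M + 1) * (N + 1) := by ring
  omega

end Pool.Agent.helper25.SX
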