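import Pool.Agent.helper25.SX.Induct
import Pool.Agent.helper25.SX.Exist
import Pool.Agent.helper25.SX.NumX
import Pool.Agent.helper25.ST.Main

set_option autoImplicit false

/-!
# Module FinM: assembly, `exactM` (`exactEps` is module FinX)

`exactE`: `ms` with all elements `≤ M`, `v` simple points, `C(d+2,2) ≤ cd ms + v ≤ C(d+2,2) + W ^ 2`:
`split` gives `a`, ones, zeros; `Win` is `proc` with `nef2` (`Φ = 5 d ^ 2`). If `w ≤ s` (`s = v +` number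
of ones) `hWin`. Otherwise `cd a ≥ C - w`, all elements of `a` are `≤ M`, so `mass M a = S1 a`,
`2 cd a ≤ M * S1 a` (`two_mul_kk`), so `(M + 1) S1 a ≥ 2 C - 2 w ≥ d ^ 2 / 2`, hence
`T0 + 16 * 9 ^ j * 2 w ≤ S1 a`, `induct`.
`S2 a ≤ (9/2) cd a ≤ 5 d ^ 2` as in ST/MainE.lean, ST/MainR.lean (`4 w ≤ d ^ 2` is not even needed here:
`cd a ≤ C + W ^ 2`).
`exactM`: regular case `exactE` with `v = C - cd ms`, `good_of_E_ones`; empty case: `exists_sub` (`W`),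
`exactE` with `v = 0`, `E.add`.
`exactJ`: `generic_of_good` as in ST/Main.lean.
`exactEps`: choose `j` with `1 ≤ 4 * 9 ^ j * ε`; `C' (M+1) ^ (5/4 + ε) ≤ d` with
`C' = C ^ (1 / (4 * 9 ^ j)) + 1` gives `C (M+1) ^ (5 * 9 ^ j + 1) ≤ d ^ (4 * 9 ^ j)` (`Real.rpow`).
-/

namespace Pool.Agent.helper25.SX

open MvPolynomial Pool.Agent.helper89.Segre Pool.Agent.SH9 Pool.Agent.helper25.ST

/-- `2 cd a ≤ (M + 1) S1 a` -/
private lemma two_cd_le {M : ℕ} (a : Multiset ℕ) (h : ∀ μ ∈ a, μ ≤ M) :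
    2 * cd a ≤ (M + 1) * S1 a := by
  induction a using Multiset.induction_on with
  | empty => simp [cd, S1]
  | cons m a ih =>
    have h1 := ih (fun μ hμ => h μ (Multiset.mem_cons_of_mem hμ))
    have h2 := h m (Multiset.mem_cons_self _ _)
    have h3 := two_mul_kk m
    have h4 : m * m ≤ M * m := Nat.mul_le_mul_right m h2
    rw [cd_cons, S1_cons]
    nlinarith

private lemma mass_eq {M : ℕ} (a : Multiset ℕ) (h : ∀ μ ∈ a, μ ≤ M) : mass M a = S1 a := by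
  rw [mass, Multiset.filter_eq_self.mpr h]

private theorem exactE {j d M W A Δ w K0 T0 v : ℕ} {ms : Multiset ℕ} (hms : ∀ μ ∈ ms, μ ≤ M)
    (hW1 : 1 ≤ W) (hWM : 2 * 3 ^ j * (M + 1) + 1 ≤ W) (hd : 10 ^ 7 * W ≤ d)
    (hΔ : 10 ^ 23 * W ^ 6 ≤ Δ * d ^ 4)
    (hA : 3 * (5 * d ^ 2) + 3 * (Nat.sqrt (9 * W) + 1) * W ^ 2 ≤ W * A)
    (hw : 3 * A + 3 * Δ + 2 * d + 1 ≤ w) (hwd : 4 * w ≤ d ^ 2)
    (hK : (196 * (9 ^ j) ^ 4) ^ 9 ^ j *
      (9 ^ j * (2 * Nat.sqrt (20 * 3 ^ j * M) / (20 * 3 ^ j)) + 1) ≤ K0 ^ 9 ^ j)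
    (hT : 3 * K0 * (M + 1) * (Nat.sqrt (20 * 3 ^ j * M) + 1) < T0)
    (hTd : 2 * (M + 1) * (T0 + 16 * 9 ^ j * (2 * w)) ≤ d ^ 2)
    (hlo : (d + 2).choose 2 ≤ cd ms + v) (hhi : cd ms + v ≤ (d + 2).choose 2 + W ^ 2) :
    E d (ms + Multiset.replicate v 1) := by
  obtain ⟨a, s, z, e1, e2, e3, e4, -, e6, -⟩ := split ms
  have hMW : M + 2 ≤ W := by
    have h3 : 1 ≤ 3 ^ j := Nat.one_le_pow _ _ (by norm_num)
    have h4 : 2 * 3 ^ j * (M + 1) = 2 * (3 ^ j * (M + 1)) := by ring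
    have h5 : M + 1 ≤ 3 ^ j * (M + 1) := Nat.le_mul_of_pos_left _ h3
    omega
  have ha : ∀ μ ∈ a, μ ≤ M := fun μ hμ => hms μ (Multiset.mem_of_le e3 hμ)
  have haW : ∀ μ ∈ a, 2 ≤ μ ∧ μ + 1 ≤ W := fun μ hμ => ⟨e2 μ hμ, by have := ha μ hμ; omega⟩
  have ht := two_choose d
  have h5 : (d + 1) * (d + 2) = d ^ 2 + 3 * d + 2 := by ring
  rw [h5] at ht
  have hd1 : 10 ^ 7 ≤ d := by
    have : 10 ^ 7 * 1 ≤ 10 ^ 7 * W := Nat.mul_le_mul_left _ hW1
    omega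
  have hWd' : 100 * W ^ 2 ≤ d ^ 2 := by
    calc 100 * W ^ 2 ≤ (10 ^ 7 * W) ^ 2 := by nlinarith [Nat.zero_le (W ^ 2)]
      _ ≤ d ^ 2 := Nat.pow_le_pow_left hd 2
  have hdd : 10 ^ 7 * d ≤ d ^ 2 := by
    calc 10 ^ 7 * d ≤ d * d := Nat.mul_le_mul_right _ hd1
      _ = d ^ 2 := by ring
  have hΦ : S2 a ≤ 5 * d ^ 2 := by omega
  have hWin : Win d W (5 * d ^ 2) w := fun ms' s' g1 g2 g3 g4 =>
    proc (U := W) hW1 le_rfl (nef2 hW1 hd hΔ) hA hw ms' s' g1 g2 g3 g4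
  have htot : (d + 2).choose 2 ≤ cd a + (s + v) := by
    rw [← add_assoc, ← e4]
    exact hlo
  have hP : P d a (s + v) := by
    by_cases hws : w ≤ s + v
    · exact hWin a (s + v) haW hΦ htot (Or.inl hws)
    · have hEx : ∀ ms' : Multiset ℕ, (∀ μ ∈ ms', 2 ≤ μ) → T0 ≤ mass M ms' → Avail M j ms' :=
        fun ms' g1 g2 => exist hK hT ms' g1 g2
      refine induct hWin hWM hEx a (s + v) haW hΦ htot ?_
      rw [mass_eq a ha]
      have h6 := two_cd_le a ha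
      have h7 : T0 + 16 * 9 ^ j * (2 * w) ≤ S1 a := by
        have h8 : 2 * (M + 1) * (T0 + 16 * 9 ^ j * (2 * w)) ≤ 2 * (M + 1) * S1 a := by
          refine hTd.trans ?_
          have h9 : 2 * (M + 1) * S1 a = 2 * ((M + 1) * S1 a) := by ring
          rw [h9]
          omega
        exact Nat.le_of_mul_le_mul_left h8 (by omega)
      refine le_trans ?_ h7
      refine Nat.add_le_add_left (Nat.mul_le_mul_left _ ?_) _
      omega
  have hQ := E.add hP (Multiset.replicate z 0)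
  have he : ms + Multiset.replicate v 1 =
      a + Multiset.replicate (s + v) 1 + Multiset.replicate z 0 := by
    rw [e1, Multiset.replicate_add]
    abel
  rw [he]
  exact hQ

theorem exactM (j : ℕ) : ∃ C : ℕ, ∀ (d M : ℕ) (ms : Multiset ℕ), (∀ μ ∈ ms, μ ≤ M) →
    C * (M + 1) ^ (5 * 9 ^ j + 1) ≤ d ^ (4 * 9 ^ j) →
    Good ℂ (tri d) ms (min (cd ms) (tri d).card) := by
  obtain ⟨C, hC⟩ := numX j
  refine ⟨C, fun d M ms hms hCd => ?_⟩
  obtain ⟨W, A, Δ, w, K0, T0, hW1, hWM, hd, hΔ, hA, hw, hwd, hK, hT, hTd⟩ := hC d M hCd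
  rcases Nat.le_total (cd ms) ((d + 2).choose 2) with hc | hc
  · have hE := exactE (v := (d + 2).choose 2 - cd ms) hms hW1 hWM hd hΔ hA hw hwd hK hT hTd
      (by omega) (by omega)
    have hG := good_of_E_ones hE
    rw [card_tri] at hG ⊢
    rw [Nat.min_eq_left hc]
    have he : (d + 2).choose 2 - ((d + 2).choose 2 - cd ms) = cd ms := by omega
    rwa [he] at hG
  · have hmsW : ∀ μ ∈ ms, μ + 1 ≤ W := by
      intro μ hμ
      have h2 := hms μ hμ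
      have h3 : 1 ≤ 3 ^ j := Nat.one_le_pow _ _ (by norm_num)
      have h4 : 2 * 3 ^ j * (M + 1) = 2 * (3 ^ j * (M + 1)) := by ring
      have h5 : M + 1 ≤ 3 ^ j * (M + 1) := Nat.le_mul_of_pos_left _ h3
      omega
    obtain ⟨gs, hg, g1, g2⟩ := exists_sub hmsW hc
    have hE := exactE (v := 0) (fun μ hμ => hms μ (Multiset.mem_of_le hg hμ)) hW1 hWM hd hΔ hA hw
      hwd hK hT hTd (by omega) (by omega)
    rw [Multiset.replicate_zero, add_zero] at hE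
    obtain ⟨rest, rfl⟩ := Multiset.le_iff_exists_add.mp hg
    have hQ := hE.add rest
    rw [Nat.min_eq_right (by rw [card_tri]; exact hc)]
    exact hQ

end Pool.Agent.helper25.SX
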