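import Pool.Agent.helper25.SX.FinM

set_option autoImplicit false

/-!
# Module FinX: assembly, `exactEps` (`exactM` is module FinM)

`exactE`: `ms` with all elements `≤ M`, `v` simple points, `C(d+2,2) ≤ cd ms + v ≤ C(d+2,2) + W ^ 2`:
`split` gives `a`, ones, zeros; `Win` is `proc` with `nef2` (`Φ = 5 d ^ 2`). If `w ≤ s` (`s = v +` number
of ones) `hWin`. Otherwise `cd a ≥ C - w`, all elements of `a` are `≤ M`, so `mass M a = S1 a`,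
`2 cd a ≤ M * S1 a` (`two_mul_kk`), so `(M + 1) S1 a ≥ 2 C - 2 w ≥ d ^ 2 / 2`, hence
`T0 + 16 * 9 ^ j * 2 w ≤ S1 a`, `induct`.
`S2 a ≤ (9/2) cd a ≤ 5 d ^ 2` as in ST/MainE.lean, ST/MainR.lean (`4 w ≤ d ^ 2` is not even needed here:
`cd a ≤ C + W ^ 2`).
`exactM`: regular case `exactE` with `v = C - cd ms`, `good_of_E_ones`; empty case: `exists_sub` (`W`),
`exactE` with `v = 0`, `E.add`.
`exactJ`: `generic_of_good` as in ST/Main.lean.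
`exactEps`: choose `j` with `1 ≤ 4 * 9 ^ j * ε`; `C' (M+1) ^ (5/4 + ε) ≤ d` with
`C' = C ^ (1 / (4 * 9 ^ j)) + 1` gives `C (M+1) ^ (5 * 9 ^ j + 1) ≤ d ^ (4 * 9 ^ j)` (`Real.rpow`).
-/

namespace Pool.Agent.helper25.SX

open MvPolynomial Pool.Agent.helper89.Segre Pool.Agent.SH9 Pool.Agent.helper25.ST

theorem exactEps (ε : ℝ) (hε : 0 < ε) : ∃ C : ℝ, 0 < C ∧ ∀ (d h M : ℕ) (m : Fin h → ℕ),
    (∀ i, m i ≤ M) → C * ((M : ℝ) + 1) ^ (5 / 4 + ε) ≤ d →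
    ∃ Q : MvPolynomial (Fin h × Fin 3) ℂ, Q ≠ 0 ∧ ∀ p : Fin h → Fin 3 → ℂ,
      eval (fun ij : Fin h × Fin 3 => p ij.1 ij.2) Q ≠ 0 →
      Module.finrank ℂ (sys d h m p) = (d + 2).choose 2 - ∑ k, (m k + 1).choose 2 := by
  obtain ⟨j, hj⟩ := pow_unbounded_of_one_lt (1 / (4 * ε)) (by norm_num : (1 : ℝ) < 9)
  have hj1 : 1 ≤ 4 * (9 : ℝ) ^ j * ε := by
    rw [div_lt_iff₀ (by positivity)] at hj
    nlinarith
  obtain ⟨C, hC⟩ := exactM j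
  refine ⟨(C : ℝ) + 1, by positivity, ?_⟩
  intro d h M m hm hd
  have hN0 : 4 * 9 ^ j ≠ 0 := by positivity
  have hM1 : (1 : ℝ) ≤ (M : ℝ) + 1 := by
    have := Nat.cast_nonneg (α := ℝ) M
    linarith
  have hM0 : (0 : ℝ) ≤ (M : ℝ) + 1 := by linarith
  have hC1 : (1 : ℝ) ≤ (C : ℝ) + 1 := by
    have := Nat.cast_nonneg (α := ℝ) C
    linarith
  have key : ((C * (M + 1) ^ (5 * 9 ^ j + 1) : ℕ) : ℝ) ≤ ((d ^ (4 * 9 ^ j) : ℕ) : ℝ) := by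
    have h1 : (((C : ℝ) + 1) * ((M : ℝ) + 1) ^ (5 / 4 + ε)) ^ (4 * 9 ^ j) ≤
        (d : ℝ) ^ (4 * 9 ^ j) :=
      pow_le_pow_left₀ (mul_nonneg (by linarith) (Real.rpow_nonneg hM0 _)) hd _
    have h2 : ((M : ℝ) + 1) ^ (5 * 9 ^ j + 1) ≤ (((M : ℝ) + 1) ^ (5 / 4 + ε)) ^ (4 * 9 ^ j) := by
      rw [← Real.rpow_natCast (((M : ℝ) + 1) ^ (5 / 4 + ε)), ← Real.rpow_mul hM0,
        ← Real.rpow_natCast ((M : ℝ) + 1)]
      apply Real.rpow_le_rpow_of_exponent_le hM1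
      push_cast
      nlinarith
    have h3 : (C : ℝ) ≤ ((C : ℝ) + 1) ^ (4 * 9 ^ j) :=
      le_trans (by linarith) (le_self_pow₀ hC1 hN0)
    push_cast
    calc (C : ℝ) * ((M : ℝ) + 1) ^ (5 * 9 ^ j + 1)
        ≤ ((C : ℝ) + 1) ^ (4 * 9 ^ j) * (((M : ℝ) + 1) ^ (5 / 4 + ε)) ^ (4 * 9 ^ j) :=
          mul_le_mul h3 h2 (pow_nonneg hM0 _) (pow_nonneg (by linarith) _)
      _ = (((C : ℝ) + 1) * ((M : ℝ) + 1) ^ (5 / 4 + ε)) ^ (4 * 9 ^ j) := (mul_pow _ _ _).symm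
      _ ≤ _ := h1
  have hcd : cd (Finset.univ.val.map m) = ∑ k, (m k + 1).choose 2 := sumkk_eq m
  have hms : ∀ μ ∈ (Finset.univ.val.map m : Multiset ℕ), μ ≤ M := by
    intro μ hμ
    obtain ⟨i, _, rfl⟩ := Multiset.mem_map.mp hμ
    exact hm i
  have hG := hC d M _ hms (by exact_mod_cast key)
  rw [hcd, card_tri] at hG
  exact generic_of_good hG

end Pool.Agent.helper25.SX
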