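import Pool.Agent.helper25.SX.Macro

set_option autoImplicit false

/-!
# Module Induct: the induction `induct` (`macro4` is module Macro)

`macro4`: four groups `G i` of `9 ^ j` elements in `[x, x + ω]` with equal sums: `block` (with `tree`) for
the list `[G 0, G 1, G 2, G 3]`; the final outcome is `T'` with four elements, all equal (equal
sums) to `τ`, so `T' = replicate 4 τ`; `step4`, both outcomes have progress; the bound
`2 τ + 1 ≤ 2 * 3 ^ j * (x + ω + 1)` from `tau_bounds`, `two_cj`; the outcomes of `block` satisfy the smaller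
bound. `S2`: `(2 τ + 2) ^ 2 = 4 (τ + 1) ^ 2 = S2 T'`.

`induct`: strong induction on `card ms`. If `w ≤ s` or `C + w ≤ cd ms + s`: `hWin`. Otherwise
`hEx` gives `Avail`. Case of four equal elements `x`: `step4`; both new systems satisfy the induction
hypothesis or are won: the mass drops by at most `4 (x + 1) ≤ 6 x`, and
`need = (w - s) + (C + w - (cd ms + s))` drops by at least `x`. Case of four groups: `macro4` with
`R = ms - ∑ G i`; for an outcome `Y, s'` with progress: `S2` does not increase, elements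
`≤ 2 * 3 ^ j * (M + 1)`, the mass drops by at most `S1 (∑ G i) ≤ 4 * 9 ^ j * (x + ω + 1) ≤ 8 * 9 ^ j * x`
(`ω + 1 ≤ x`, as `5 ω ^ 2 ≤ x`, `2 ≤ x`), `2 need` drops by at least `x` (or the system is won).
-/

namespace Pool.Agent.helper25.SX

open MvPolynomial Pool.Agent.helper89.Segre Pool.Agent.SH9 Pool.Agent.helper25.ST

private lemma mass_le (M : ℕ) (G : Multiset ℕ) : mass M G ≤ S1 G := by
  have h : S1 G = mass M G + S1 (G.filter fun μ => ¬ μ ≤ M) := by
    rw [mass, ← S1_add, Multiset.filter_add_not]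
  omega

private lemma S1_le_of_le {B : ℕ} (G : Multiset ℕ) (h : ∀ μ ∈ G, μ ≤ B) :
    S1 G ≤ Multiset.card G * (B + 1) := by
  induction G using Multiset.induction_on with
  | empty => simp [S1]
  | cons m ms ih =>
    have h1 := ih (fun μ hμ => h μ (Multiset.mem_cons_of_mem hμ))
    have h2 := h m (Multiset.mem_cons_self _ _)
    rw [S1_cons, Multiset.card_cons, Nat.add_mul, one_mul]
    omega

private lemma next {d W Φ w M j T0 : ℕ} (hWin : Win d W Φ w) {G R Y : Multiset ℕ} {s s' x : ℕ}
    (hms : ∀ μ ∈ G + R, 2 ≤ μ ∧ μ + 1 ≤ W) (hΦ : S2 (G + R) ≤ Φ)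
    (ht : (d + 2).choose 2 ≤ cd (G + R) + s)
    (h : T0 + 16 * 9 ^ j * ((w - s) + ((d + 2).choose 2 + w - (cd (G + R) + s))) ≤ mass M (G + R))
    (hno : ¬ (w ≤ s ∨ (d + 2).choose 2 + w ≤ cd (G + R) + s))
    (hm : 2 * S1 G ≤ 16 * 9 ^ j * x) (hY : ∀ μ ∈ Y, 2 ≤ μ ∧ μ + 1 ≤ W) (h2 : S2 Y ≤ S2 G)
    (hc : cd G + s ≤ cd Y + s') (hs : s ≤ s')
    (hp : 2 * s + x ≤ 2 * s' ∨ 2 * (cd G + s) + x ≤ 2 * (cd Y + s'))
    (ih : (∀ μ ∈ Y + R, 2 ≤ μ ∧ μ + 1 ≤ W) → S2 (Y + R) ≤ Φ →
      (d + 2).choose 2 ≤ cd (Y + R) + s' →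
      T0 + 16 * 9 ^ j * ((w - s') + ((d + 2).choose 2 + w - (cd (Y + R) + s'))) ≤ mass M (Y + R) →
      P d (Y + R) s') :
    P d (Y + R) s' := by
  have g1 : ∀ μ ∈ Y + R, 2 ≤ μ ∧ μ + 1 ≤ W := by
    intro μ hμ
    rcases Multiset.mem_add.1 hμ with hμ | hμ
    · exact hY μ hμ
    · exact hms μ (Multiset.mem_add.2 (Or.inr hμ))
  have g2 : S2 (Y + R) ≤ Φ := by
    rw [S2_add] at hΦ ⊢
    omega
  have g3 : (d + 2).choose 2 ≤ cd (Y + R) + s' := by
    rw [cd_add] at ht ⊢
    omega
  by_cases hw : w ≤ s' ∨ (d + 2).choose 2 + w ≤ cd (Y + R) + s'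
  · exact hWin _ _ g1 g2 g3 hw
  · refine ih g1 g2 g3 ?_
    have h5 := mass_le M G
    rw [mass_add] at h ⊢
    rw [cd_add] at h ht hno hw ⊢
    have h6 : 2 * ((w - s') + ((d + 2).choose 2 + w - (cd Y + cd R + s'))) + x ≤
        2 * ((w - s) + ((d + 2).choose 2 + w - (cd G + cd R + s))) := by
      omega
    generalize (w - s') + ((d + 2).choose 2 + w - (cd Y + cd R + s')) = n' at h6 ⊢
    generalize (w - s) + ((d + 2).choose 2 + w - (cd G + cd R + s)) = n at h6 h
    generalize 16 * 9 ^ j = q at h hm ⊢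
    have h7 := Nat.mul_le_mul_left q h6
    have h8 : q * (2 * n' + x) = 2 * (q * n') + q * x := by ring
    have h9 : q * (2 * n) = 2 * (q * n) := by ring
    rw [h8, h9] at h7
    omega

theorem induct {d W Φ w M j T0 : ℕ} (hWin : Win d W Φ w) (hW : 2 * 3 ^ j * (M + 1) + 1 ≤ W)
    (hEx : ∀ ms : Multiset ℕ, (∀ μ ∈ ms, 2 ≤ μ) → T0 ≤ mass M ms → Avail M j ms)
    (ms : Multiset ℕ) (s : ℕ) (hms : ∀ μ ∈ ms, 2 ≤ μ ∧ μ + 1 ≤ W) (hΦ : S2 ms ≤ Φ)
    (ht : (d + 2).choose 2 ≤ cd ms + s)
    (h : T0 + 16 * 9 ^ j * ((w - s) + ((d + 2).choose 2 + w - (cd ms + s))) ≤ mass M ms) :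
    P d ms s := by
  have key : ∀ (n : ℕ) (ms : Multiset ℕ) (s : ℕ), Multiset.card ms = n →
      (∀ μ ∈ ms, 2 ≤ μ ∧ μ + 1 ≤ W) → S2 ms ≤ Φ → (d + 2).choose 2 ≤ cd ms + s →
      T0 + 16 * 9 ^ j * ((w - s) + ((d + 2).choose 2 + w - (cd ms + s))) ≤ mass M ms →
      P d ms s := by
    intro n
    induction n using Nat.strong_induction_on with
    | _ n ih =>
      intro ms s hn hms hΦ ht h
      by_cases hw : w ≤ s ∨ (d + 2).choose 2 + w ≤ cd ms + s
      · exact hWin ms s hms hΦ ht hw
      have h9 : 1 ≤ 9 ^ j := Nat.one_le_pow _ _ (by norm_num)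
      have h3 : 1 ≤ 3 ^ j := Nat.one_le_pow _ _ (by norm_num)
      rcases hEx ms (fun μ hμ => (hms μ hμ).1) (le_trans (Nat.le_add_right _ _) h) with
        ⟨x, hx2, hxM, hx4⟩ | ⟨x, ω, A, G, hx2, hω, hM, hG, hle⟩
      · obtain ⟨R, rfl⟩ := Multiset.le_iff_exists_add.1 hx4
        have hWx : 2 * x + 2 + 1 ≤ W := by
          refine le_trans ?_ hW
          have h4 : 2 * 1 * (M + 1) ≤ 2 * 3 ^ j * (M + 1) := by gcongr
          omega
        have hS1 : S1 (Multiset.replicate 4 x) = 4 * (x + 1) := by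
          simp [S1]
          ring
        have hS2 : S2 (Multiset.replicate 4 x) = 4 * (x + 1) ^ 2 := by
          simp [S2]
          ring
        have hcd : cd (Multiset.replicate 4 x) = 4 * kk x := by
          simp [cd]
          ring
        have hm : 2 * S1 (Multiset.replicate 4 x) ≤ 16 * 9 ^ j * x := by
          rw [hS1]
          calc 2 * (4 * (x + 1)) ≤ 16 * 1 * x := by omega
            _ ≤ 16 * 9 ^ j * x := by gcongr
        obtain ⟨k1, k2⟩ := kk_four x
        have hcard : Multiset.card (Multiset.replicate 4 x + R) = Multiset.card R + 4 := by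
          rw [Multiset.card_add, Multiset.card_replicate]
          omega
        refine step4 (by omega) ?_ ?_
        · have e1 : (2 * x + 1) ::ₘ R = {2 * x + 1} + R := rfl
          have c1 : cd ({2 * x + 1} : Multiset ℕ) = kk (2 * x + 1) := by simp [cd]
          have c2 : S2 ({2 * x + 1} : Multiset ℕ) = (2 * x + 1 + 1) ^ 2 := by simp [S2]
          rw [e1]
          refine next (x := x) hWin hms hΦ ht h hw hm ?_ ?_ ?_ le_rfl ?_ ?_
          · intro μ hμ
            rw [Multiset.mem_singleton] at hμ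
            omega
          · rw [c2, hS2]
            exact le_of_eq (by ring)
          · rw [c1, hcd]
            omega
          · right
            rw [c1, hcd]
            omega
          · intro g1 g2 g3 g4
            refine ih _ ?_ _ s rfl g1 g2 g3 g4
            rw [← hn, hcard, Multiset.card_add, Multiset.card_singleton]
            omega
        · have e1 : (2 * x) ::ₘ R = {2 * x} + R := rfl
          have c1 : cd ({2 * x} : Multiset ℕ) = kk (2 * x) := by simp [cd]
          have c2 : S2 ({2 * x} : Multiset ℕ) = (2 * x + 1) ^ 2 := by simp [S2]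
          rw [e1]
          refine next (x := x) hWin hms hΦ ht h hw hm ?_ ?_ ?_ (Nat.le_add_right _ _) ?_ ?_
          · intro μ hμ
            rw [Multiset.mem_singleton] at hμ
            omega
          · rw [c2, hS2]
            calc (2 * x + 1) ^ 2 ≤ (2 * (x + 1)) ^ 2 := by gcongr; omega
              _ = 4 * (x + 1) ^ 2 := by ring
          · rw [c1, hcd]
            omega
          · left
            omega
          · intro g1 g2 g3 g4
            refine ih _ ?_ _ (s + x) rfl g1 g2 g3 g4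
            rw [← hn, hcard, Multiset.card_add, Multiset.card_singleton]
            omega
      · obtain ⟨R, rfl⟩ := Multiset.le_iff_exists_add.1 hle
        have hω1 : ω + 1 ≤ x := by
          have h4 : 5 * 1 * ω ^ 2 ≤ 5 * 3 ^ j * ω ^ 2 := by gcongr
          rcases Nat.eq_zero_or_pos ω with h0 | h0
          · omega
          · nlinarith
        have hS1 : ∀ i, S1 (G i) ≤ 9 ^ j * (x + ω + 1) := by
          intro i
          have h4 := S1_le_of_le (B := x + ω) (G i) (fun μ hμ => ((hG i).2.2 μ hμ).2)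
          rwa [(hG i).1] at h4
        have hS : S1 (∑ i, G i) ≤ 4 * (9 ^ j * (x + ω + 1)) := by
          rw [Fin.sum_univ_four, S1_add, S1_add, S1_add]
          have a0 := hS1 0
          have a1 := hS1 1
          have a2 := hS1 2
          have a3 := hS1 3
          omega
        have hm : 2 * S1 (∑ i, G i) ≤ 16 * 9 ^ j * x := by
          have h4 : 9 ^ j * (x + ω + 1) ≤ 9 ^ j * (2 * x) := by gcongr; omega
          have h5 : 9 ^ j * (2 * x) = 2 * (9 ^ j * x) := by ring
          have h6 : 16 * 9 ^ j * x = 16 * (9 ^ j * x) := by ring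
          rw [h6]
          omega
        refine macro4 G R s hx2 hω hG ?_
        intro Y s' hY
        refine next (x := x) hWin hms hΦ ht h hw hm ?_ hY.s2 hY.cond hY.simple hY.prog ?_
        · intro μ hμ
          refine ⟨hY.two μ hμ, ?_⟩
          have h4 := hY.le μ hμ
          have h5 : 2 * 3 ^ j * (x + ω + 1) ≤ 2 * 3 ^ j * (M + 1) := by gcongr
          omega
        · intro g1 g2 g3 g4
          refine ih _ ?_ _ s' rfl g1 g2 g3 g4
          rw [← hn, Multiset.card_add, Multiset.card_add]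
          have := hY.card
          omega
  exact key _ ms s rfl hms hΦ ht h

end Pool.Agent.helper25.SX
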