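import Pool.Agent.helper25.SX.Tree

set_option autoImplicit false

/-!
# Module Macro: the macro step `macro4` (`induct` is module Induct)

`macro4`: four groups `G i` of `9 ^ j` elements in `[x, x + ω]` with equal sums: `block` (with `tree`) for
the list `[G 0, G 1, G 2, G 3]`; the final outcome is `T'` with four elements, all equal (equal
sums) to `τ`, so `T' = replicate 4 τ`; `step4`, both outcomes have progress; the bound
`2 τ + 1 ≤ 2 * 3 ^ j * (x + ω + 1)` from `tau_bounds`, `two_cj`; the outcomes of `block` satisfy the smaller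
bound. `S2`: `(2 τ + 2) ^ 2 = 4 (τ + 1) ^ 2 = S2 T'`.

`induct`: strong induction on `card ms`. If `w ≤ s` or `C + w ≤ cd ms + s`: `hWin`. Otherwise
`hEx` gives `Avail`. Case of four equal elements `x`: `step4`; both new systems satisfy the induction
hypothesis or are won: the mass drops by at most `4 (x + 1) ≤ 6 x`, and
`need = (w - s) + (C + w - (cd ms + s))` drops by at least `x`. Case of four groups: `macro4` with
`R = ms - ∑ G i`; for an outcome `Y, s'` with progress: `S2` does not increase, elements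
`≤ 2 * 3 ^ j * (M + 1)`, the mass drops by at most `S1 (∑ G i) ≤ 4 * 9 ^ j * (x + ω + 1) ≤ 8 * 9 ^ j * x`
(`ω + 1 ≤ x`, as `5 ω ^ 2 ≤ x`, `2 ≤ x`), `2 need` drops by at least `x` (or the system is won).
-/

namespace Pool.Agent.helper25.SX

open MvPolynomial Pool.Agent.helper89.Segre Pool.Agent.SH9 Pool.Agent.helper25.ST

theorem macro4 {j d x ω A : ℕ} (G : Fin 4 → Multiset ℕ) (R : Multiset ℕ) (s : ℕ) (hx : 2 ≤ x)
    (hω : 5 * 3 ^ j * ω ^ 2 ≤ x)
    (hG : ∀ i, Multiset.card (G i) = 9 ^ j ∧ (G i).sum = A ∧ ∀ μ ∈ G i, x ≤ μ ∧ μ ≤ x + ω)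
    (hp : ∀ Y s', POut (∑ i, G i) s x (2 * 3 ^ j * (x + ω + 1)) Y s' → P d (Y + R) s') :
    P d (∑ i, G i + R) s := by
  have h3p : 0 < 3 ^ j := by positivity
  have h9p : 0 < 9 ^ j := by positivity
  have hcj := two_cj j
  have hsum : (List.ofFn G).sum = ∑ i, G i := List.sum_ofFn
  have hcard : Multiset.card (∑ i, G i) = 4 * 9 ^ j := by
    simp only [Fin.sum_univ_four, Multiset.card_add, (hG _).1]
    ring
  have key := block (tree j) (d := d) hx hω (List.ofFn G) R s ?_ ?_ ?_
  · rwa [hsum] at key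
  · intro G' hG'
    obtain ⟨i, rfl⟩ := (List.mem_ofFn' G G').mp hG'
    exact ⟨(hG i).1, (hG i).2.2⟩
  · intro Y s' hY
    rw [hsum] at hY
    refine hp Y s' ⟨hY.two, fun μ hμ => (hY.le μ hμ).trans ?_, hY.s2, hY.cond, hY.simple, hY.prog,
      hY.card⟩
    rw [mul_assoc]
    omega
  · intro T' s' g1 g2 _ g4 g5 g6
    rw [hsum] at g4 g5
    rw [List.length_ofFn] at g1
    obtain ⟨τ, hτ⟩ : ∃ τ, τ ∈ T' := Multiset.card_pos_iff_exists_mem.mp (by omega)
    have hA : ∀ τ' ∈ T', 3 ^ j * τ' = A + 3 ^ j * cj j := by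
      intro τ' h
      obtain ⟨G', h1, h2⟩ := g2 τ' h
      obtain ⟨i, rfl⟩ := (List.mem_ofFn' G G').mp h1
      rw [h2, (hG i).2.1]
    have hT : T' = Multiset.replicate 4 τ := by
      rw [Multiset.eq_replicate]
      refine ⟨g1, fun b hb => ?_⟩
      exact Nat.eq_of_mul_eq_mul_left h3p ((hA b hb).trans (hA τ hτ).symm)
    have hb := tau_bounds (hG 0).1 (hG 0).2.2 (τ := τ) (by rw [hA τ hτ, (hG 0).2.1])
    have hxl : x ≤ 3 ^ j * x := Nat.le_mul_of_pos_left _ h3p
    have hB : 2 * 3 ^ j * (x + ω + 1) = 2 * (3 ^ j * (x + ω)) + 2 * 3 ^ j := by ring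
    have hS : S2 T' = 4 * (τ + 1) ^ 2 := by
      rw [hT, S2, Multiset.map_replicate, Multiset.sum_replicate, smul_eq_mul]
    have hC : cd T' = 4 * kk τ := by
      rw [hT, cd, Multiset.map_replicate, Multiset.sum_replicate, smul_eq_mul]
    obtain ⟨k1, k2⟩ := kk_four τ
    rw [hT]
    rw [hS] at g4
    rw [hC] at g5
    have hY1 : POut (∑ i, G i) s x (2 * 3 ^ j * (x + ω + 1)) {2 * τ + 1} s' := by
      refine ⟨?_, ?_, ?_, ?_, g6, ?_, ?_⟩
      · intro μ hμ
        rw [Multiset.mem_singleton.mp hμ]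
        omega
      · intro μ hμ
        rw [Multiset.mem_singleton.mp hμ, hB]
        omega
      · have : S2 ({2 * τ + 1} : Multiset ℕ) = 4 * (τ + 1) ^ 2 := by
          simp only [S2, Multiset.map_singleton, Multiset.sum_singleton]
          ring
        rw [this]
        exact g4
      · simp only [cd, Multiset.map_singleton, Multiset.sum_singleton] at g5 ⊢
        omega
      · right
        simp only [cd, Multiset.map_singleton, Multiset.sum_singleton] at g5 ⊢
        omega
      · rw [hcard, Multiset.card_singleton]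
        omega
    have hY2 : POut (∑ i, G i) s x (2 * 3 ^ j * (x + ω + 1)) {2 * τ} (s' + τ) := by
      refine ⟨?_, ?_, ?_, ?_, by omega, ?_, ?_⟩
      · intro μ hμ
        rw [Multiset.mem_singleton.mp hμ]
        omega
      · intro μ hμ
        rw [Multiset.mem_singleton.mp hμ, hB]
        omega
      · have : S2 ({2 * τ} : Multiset ℕ) ≤ 4 * (τ + 1) ^ 2 := by
          simp only [S2, Multiset.map_singleton, Multiset.sum_singleton]
          nlinarith
        exact this.trans g4
      · simp only [cd, Multiset.map_singleton, Multiset.sum_singleton] at g5 ⊢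
        omega
      · left
        omega
      · rw [hcard, Multiset.card_singleton]
        omega
    refine step4 (by omega) ?_ ?_
    · have := hp _ _ hY1
      rwa [Multiset.singleton_add] at this
    · have := hp _ _ hY2
      rwa [Multiset.singleton_add] at this

end Pool.Agent.helper25.SX
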