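import Pool.Agent.helper25.SX.Defs

set_option autoImplicit false

/-!
# Module Nine2: the collision of nine nearly equal points, explicit; four equal points

`nine2`: as in ST/NineT.lean (second half of its proof), `t = gs.sum / 3`, `σ = t + 2 - ρ`. Numbers: let
`A = gs.sum`, `Q` the sum of squares, `V = 9 Q - A ^ 2`, `n = 3 (t + 1) - A` (`n = 1, 2, 3` for
`A ≡ 2, 1, 0 mod 3`), so `hV` is `5 V ≤ 4 A + 36` and `A ≥ 18`. `2 cd gs = Q + A` (`two_cd`, `S1 = A + 9`,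
`S2 = Q + 2 A + 9`), `2 kk (t+2) = (t+2)(t+3)`, hence
`18 ρ = 2 A n + n ^ 2 - V + 9 n + 18`, `18 σ = 2 A (3 - n) - 3 n - n ^ 2 + V`. So `15 ρ ≥ A` (worst case
`n = 1`), and `15 σ ≥ A` if `n = 1, 2`.
`step4` is `coll4` (helper61.EX.Four), `step9` is `cw_gen` (SH9.CW) with the data of `nine2`;
`(t + 3) ^ 2 ≤ S2 gs` from `3 (t + 3) ≤ S1 gs` and `cs_card` (ST.Proc).
-/

namespace Pool.Agent.helper25.SX

open MvPolynomial Pool.Agent.helper89.Segre Pool.Agent.SH9 Pool.Agent.helper25.ST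

private lemma nine2_S1 (gs : Multiset ℕ) : S1 gs = gs.sum + Multiset.card gs := by
  induction gs using Multiset.induction_on with
  | empty => simp [S1]
  | cons m ms ih =>
    rw [S1_cons, ih, Multiset.sum_cons, Multiset.card_cons]
    ring

private lemma nine2_sum (gs : Multiset ℕ) (h2 : ∀ μ ∈ gs, 2 ≤ μ) :
    2 * Multiset.card gs ≤ gs.sum := by
  have h := Multiset.card_nsmul_le_sum (s := gs) (a := 2) h2
  rw [smul_eq_mul] at h
  omega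

theorem nine2 {gs : Multiset ℕ} (hc : Multiset.card gs = 9) (h2 : ∀ μ ∈ gs, 2 ≤ μ)
    (hV : 45 * S2 gs ≤ 5 * S1 gs ^ 2 + 4 * S1 gs) (hne : ∃ a ∈ gs, ∃ b ∈ gs, a ≠ b) :
    ∃ ρ σ : ℕ, E (gs.sum / 3) gs ∧ E (gs.sum / 3 + 1) (gs + Multiset.replicate ρ 1) ∧
      ρ + σ = gs.sum / 3 + 2 ∧ cd gs + ρ = kk (gs.sum / 3 + 2) ∧
      kk (gs.sum / 3 + 1) + σ = cd gs ∧ gs.sum ≤ 15 * ρ ∧ (¬ 3 ∣ gs.sum → gs.sum ≤ 15 * σ) := by
  have hS := nine2_S1 gs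
  rw [hc] at hS
  have hs := nine2_sum gs h2
  rw [hc] at hs
  have hE : E (gs.sum / 3) gs := by
    apply nineE hc
    by_cases h : 3 * (gs.sum / 3) < gs.sum
    · exact Or.inl h
    · exact Or.inr ⟨by omega, hne⟩
  obtain ⟨ρ, h1, h3⟩ := nineReg (d := gs.sum / 3 + 1) hc (by omega) hV
  have h4 := card_le hE
  have h5 := two_choose (gs.sum / 3)
  have h6 := two_choose (gs.sum / 3 + 1)
  have h7 := two_cd gs
  have h8 := cs_card gs
  rw [hc] at h8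
  have hk2 : kk (gs.sum / 3 + 2) = (gs.sum / 3 + 1 + 2).choose 2 := rfl
  have hk1 := kk_succ (gs.sum / 3)
  have hρ : ρ ≤ gs.sum / 3 + 2 := by
    clear hE h1 hV h7 h8 hk1 hk2
    generalize gs.sum / 3 = t at *
    rw [show t + 1 + 2 = t + 3 by ring] at h3 h6
    nlinarith
  obtain ⟨r, hr, hA⟩ : ∃ r, r < 3 ∧ gs.sum = 3 * (gs.sum / 3) + r :=
    ⟨gs.sum % 3, Nat.mod_lt _ (by norm_num), (Nat.div_add_mod _ _).symm⟩
  refine ⟨ρ, gs.sum / 3 + 2 - ρ, hE, h1, by omega, ?_, ?_, ?_, ?_⟩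
  · rw [hk2]; exact h3
  · omega
  · clear hE h1 h4 h5 hk1 hk2 h8 hne h2
    rw [hS] at hV h7
    generalize gs.sum = A at *
    generalize A / 3 = t at *
    subst hA
    interval_cases r <;> nlinarith
  · intro h9
    have hr0 : r ≠ 0 := by
      rintro rfl
      exact h9 ⟨gs.sum / 3, by omega⟩
    obtain ⟨σ, hσ⟩ : ∃ σ, ρ + σ = gs.sum / 3 + 2 := ⟨_, Nat.add_sub_cancel' hρ⟩
    have hσ' : gs.sum / 3 + 2 - ρ = σ := by omega
    rw [hσ']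
    clear hE h1 h4 h5 hk1 hk2 hV hne h2 h9 hσ'
    rw [hS] at h7 h8
    generalize gs.sum = A at *
    generalize A / 3 = t at *
    subst hA
    interval_cases r <;> first | (exact absurd rfl hr0) | nlinarith

theorem step4 {d x s : ℕ} {R : Multiset ℕ} (hx : 1 ≤ x) (h1 : P d ((2 * x + 1) ::ₘ R) s)
    (h2 : P d ((2 * x) ::ₘ R) (s + x)) : P d (Multiset.replicate 4 x + R) s := by
  unfold P at *
  rw [add_assoc]
  refine Pool.Agent.helper61.EX.coll4 hx ?_ ?_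
  · rw [← Multiset.cons_add]; exact h1
  · rw [add_assoc, ← Multiset.replicate_add, ← Multiset.cons_add]; exact h2

/-- numbers for `step4`: `kk (2 x + 1) = 4 kk x + x + 1`, `kk (2 x) + x = 4 kk x` -/
theorem kk_four (x : ℕ) : kk (2 * x + 1) = 4 * kk x + x + 1 ∧ kk (2 * x) + x = 4 * kk x := by
  have h1 := two_mul_kk x
  have h2 := two_mul_kk (2 * x + 1)
  have h3 := two_mul_kk (2 * x)
  constructor <;> nlinarith

theorem step9 {gs : Multiset ℕ} (hc : Multiset.card gs = 9) (h2 : ∀ μ ∈ gs, 2 ≤ μ)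
    (hV : 45 * S2 gs ≤ 5 * S1 gs ^ 2 + 4 * S1 gs) (hne : ∃ a ∈ gs, ∃ b ∈ gs, a ≠ b) :
    ∃ ρ σ : ℕ, cd gs + ρ = kk (gs.sum / 3 + 2) ∧ kk (gs.sum / 3 + 1) + σ = cd gs ∧
      gs.sum ≤ 15 * ρ ∧ (¬ 3 ∣ gs.sum → gs.sum ≤ 15 * σ) ∧ (gs.sum / 3 + 3) ^ 2 ≤ S2 gs ∧
      ∀ (d : ℕ) (R : Multiset ℕ) (s : ℕ), P d ((gs.sum / 3 + 2) ::ₘ R) s →
        P d ((gs.sum / 3 + 1) ::ₘ R) (s + σ) → P d (gs + R) s := by
  obtain ⟨ρ, σ, h1, h3, h4, h5, h6, h7, h8⟩ := nine2 hc h2 hV hne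
  refine ⟨ρ, σ, h5, h6, h7, h8, ?_, ?_⟩
  · have hS := nine2_S1 gs
    rw [hc] at hS
    have hcs := cs_card gs
    rw [hc] at hcs
    have h9 : (3 * (gs.sum / 3 + 3)) ^ 2 ≤ S1 gs ^ 2 := Nat.pow_le_pow_left (by omega) 2
    nlinarith
  · intro d R s hA hB
    unfold P at *
    rw [add_assoc]
    refine cw_gen (t := gs.sum / 3) (ρ := ρ) (σ := σ) h4.le h1 h3 ?_ ?_
    · rw [← Multiset.cons_add]; exact hA
    · rw [add_assoc, ← Multiset.replicate_add, ← Multiset.cons_add]; exact hB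

end Pool.Agent.helper25.SX
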