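import Pool.Agent.helper25.SX.Defs

set_option autoImplicit false

/-!
# Module Split9: two lemmas on multisets

`nine_near`: `9 S2 - S1 ^ 2 = ∑_(i<k) (a_i - a_k) ^ 2 ≤ 36 ω ^ 2` (36 pairs), so
`45 S2 ≤ 5 S1 ^ 2 + 180 ω ^ 2 ≤ 5 S1 ^ 2 + 36 y ≤ 5 S1 ^ 2 + 4 S1` (`near` in ST/Bucket.lean is similar; one way:
`∑ (a - y') (y' + ω - a) ≥ 0` with `y' = y + 1`, `a = μ + 1`).
`exists_split`: induction on `n`, `Multiset.exists_le_card_eq` or lists (`List.take`, `List.drop`).
-/

namespace Pool.Agent.helper25.SX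

open MvPolynomial Pool.Agent.helper89.Segre Pool.Agent.SH9 Pool.Agent.helper25.ST

private lemma nn_shift {gs : Multiset ℕ} {b C : ℕ}
    (h : ∀ μ ∈ gs, b ≤ μ + 1 ∧ μ + 1 ≤ b + C) :
    ∃ t q : ℕ, S1 gs = Multiset.card gs * b + t ∧
      S2 gs = Multiset.card gs * b ^ 2 + 2 * b * t + q ∧ q ≤ C * t := by
  induction gs using Multiset.induction_on with
  | empty => exact ⟨0, 0, by simp [S1_zero], by simp [S2_zero], by simp⟩
  | cons m ms ih =>
    obtain ⟨t, q, h1, h2, h3⟩ := ih (fun μ hμ => h μ (Multiset.mem_cons_of_mem hμ))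
    obtain ⟨h4, h5⟩ := h m (Multiset.mem_cons_self m ms)
    obtain ⟨c, hc⟩ := Nat.exists_eq_add_of_le h4
    have hcC : c ≤ C := by omega
    refine ⟨t + c, q + c ^ 2, ?_, ?_, ?_⟩
    · rw [S1_cons, h1, hc, Multiset.card_cons]
      ring
    · rw [S2_cons, h2, hc, Multiset.card_cons]
      ring
    · have : c ^ 2 ≤ C * c := by
        rw [pow_two]
        exact Nat.mul_le_mul_right c hcC
      nlinarith

/-- nine elements in a short interval are nearly equal -/
theorem nine_near {gs : Multiset ℕ} {y ω : ℕ} (hc : Multiset.card gs = 9)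
    (h : ∀ μ ∈ gs, y ≤ μ ∧ μ ≤ y + ω) (hω : 5 * ω ^ 2 ≤ y) :
    45 * S2 gs ≤ 5 * S1 gs ^ 2 + 4 * S1 gs := by
  have hall : ∀ μ ∈ gs, y + 1 ≤ μ + 1 ∧ μ + 1 ≤ y + 1 + ω := by
    intro μ hμ
    have := h μ hμ
    omega
  obtain ⟨t, q, h1, h2, h3⟩ := nn_shift hall
  rw [hc] at h1 h2
  rw [h1, h2]
  zify at h3 hω ⊢
  nlinarith [sq_nonneg (2 * (t : ℤ) - 9 * ω), sq_nonneg (ω : ℤ)]

/-- a multiset of cardinality `n * k` is a sum of `n` multisets of cardinality `k` -/
theorem exists_split (n k : ℕ) (G : Multiset ℕ) (h : Multiset.card G = n * k) :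
    ∃ Gs : List (Multiset ℕ), Gs.length = n ∧ Gs.sum = G ∧ ∀ x ∈ Gs, Multiset.card x = k := by
  induction n generalizing G with
  | zero =>
    refine ⟨[], rfl, ?_, ?_⟩
    · rw [Nat.zero_mul, Multiset.card_eq_zero] at h
      rw [h]; rfl
    · intro x hx
      exact absurd hx List.not_mem_nil
  | succ n ih =>
    have hk : k ≤ Multiset.card G := by
      rw [h, Nat.succ_mul]
      exact Nat.le_add_left _ _
    have hpos : 0 < Multiset.card (Multiset.powersetCard k G) := by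
      rw [Multiset.card_powersetCard]
      exact Nat.choose_pos hk
    obtain ⟨t, ht0⟩ := Multiset.card_pos_iff_exists_mem.1 hpos
    obtain ⟨ht, htc⟩ := Multiset.mem_powersetCard.1 ht0
    have hG : Multiset.card (G - t) = n * k := by
      rw [Multiset.card_sub ht, h, htc, Nat.succ_mul, Nat.add_sub_cancel]
    obtain ⟨Gs, h1, h2, h3⟩ := ih (G - t) hG
    refine ⟨t :: Gs, ?_, ?_, ?_⟩
    · rw [List.length_cons, h1]
    · rw [List.sum_cons, h2, add_comm]
      exact Multiset.sub_add_cancel ht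
    · intro x hx
      rcases List.mem_cons.1 hx with hx | hx
      · rw [hx, htc]
      · exact h3 x hx

end Pool.Agent.helper25.SX
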