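import Pool.Agent.helper25.SX.Tree0
import Pool.Agent.helper25.SX.Split9

set_option autoImplicit false

/-!
# Module Tree: `treeP_succ` (see below; the rest is in the modules Tree0, Split9, proved there)

`TreeP j`: for a group `G` of `9 ^ j` points with multiplicities in `[x, x + ω]`, `5 * 3 ^ j * ω ^ 2 ≤ x`:
to prove `P d (G + R) s` it suffices to treat all outcomes with progress (`POut`), and the one outcome
where `G` has become a single point `τ` with `3 ^ j τ = G.sum + 3 ^ j cj j`.

`treeP_zero`: `G = {a}`, use the second hypothesis with `s' = s`.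
`block` (list of groups, each treated by `TreeP j`): induction on the list. For `G :: Gs`: apply
`TreeP j` to `G` with `R := Gs.sum + R`. Outcomes `Y, s'` with progress: `Y + Gs.sum` is an outcome of
`G + Gs.sum` with progress, first hypothesis of `block`. Outcome `τ, s'`: induction hypothesis for `Gs` with
`R := τ ::ₘ R`, `s := s'`; its outcomes `Y, s''` with progress: `τ ::ₘ Y` is an outcome of
`G + Gs.sum` with progress (add the inequalities); its final outcomes `T', s''`: `τ ::ₘ T'`.
`tree`: `TreeP j` for all `j`, induction. Step: write `G` as a sum of nine groups of `9 ^ j`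
elements, `block`. Final outcomes: nine numbers `T'` in `[3 ^ j x + cj j, 3 ^ j (x + ω) + cj j]`; they are
nearly equal: `45 S2 T' ≤ 5 (S1 T') ^ 2 + 4 S1 T'` (`nine_near` with `ω' = 3 ^ j ω`, since
`5 ω' ^ 2 ≤ 3 ^ j x`). If `T'` is constant `= replicate 9 τ`: `step4` for four of them, both outcomes have
progress (`kk_four`). Otherwise `step9`: the raised outcome has progress (`15 ρ ≥ T'.sum ≥ 9 x`); if
`T'.sum` is not divisible by `3` the lowered outcome has progress; otherwise the lowered outcome is
`τ = T'.sum / 3 + 1`, `3 ^ (j+1) τ = 3 ^ j T'.sum + 3 ^ (j+1) = G.sum + 9 * 3 ^ j cj j + 3 ^ (j+1) =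
G.sum + 3 ^ (j+1) cj (j+1)`.
-/

namespace Pool.Agent.helper25.SX

open MvPolynomial Pool.Agent.helper89.Segre Pool.Agent.SH9 Pool.Agent.helper25.ST

private lemma le_list_sum {Gs : List (Multiset ℕ)} {G : Multiset ℕ} (h : G ∈ Gs) :
    G ≤ Gs.sum := by
  induction Gs with
  | nil => simp at h
  | cons G' Gs ih =>
    rw [List.sum_cons]
    rcases List.mem_cons.mp h with rfl | h
    · exact Multiset.le_add_right _ _
    · exact (ih h).trans (Multiset.le_add_left _ _)

private lemma S2_rep (n t : ℕ) : S2 (Multiset.replicate n t) = n * (t + 1) ^ 2 := by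
  simp [S2]

private lemma cd_rep (n t : ℕ) : cd (Multiset.replicate n t) = n * kk t := by
  simp [cd]

theorem treeP_succ {j : ℕ} (hj : TreeP j) : TreeP (j + 1) := by
  intro d x ω G R s hx hω hc hG h1 h2
  have h3p : 0 < 3 ^ j := by positivity
  have h9p : 0 < 9 ^ j := by positivity
  have h3s : 3 ^ (j + 1) = 3 * 3 ^ j := pow_succ' 3 j
  have h9s : 9 ^ (j + 1) = 9 * 9 ^ j := pow_succ' 9 j
  have hcj := two_cj j
  have hcard9 : 9 ≤ Multiset.card G := by
    rw [hc, h9s]
    omega
  obtain ⟨Gs, hlen, hsum, hcs⟩ := exists_split 9 (9 ^ j) G (by rw [hc, h9s])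
  subst hsum
  have hωj : 5 * 3 ^ j * ω ^ 2 ≤ x := by
    refine le_trans ?_ hω
    rw [h3s]
    exact Nat.mul_le_mul_right _ (by omega)
  have hGs : ∀ G' ∈ Gs, Multiset.card G' = 9 ^ j ∧ ∀ μ ∈ G', x ≤ μ ∧ μ ≤ x + ω := fun G' hG' =>
    ⟨hcs G' hG', fun μ hμ => hG μ (Multiset.mem_of_le (le_list_sum hG') hμ)⟩
  refine block hj hx hωj Gs R s hGs ?_ ?_
  · intro Y s' hY
    refine h1 Y s' ⟨hY.two, fun μ hμ => (hY.le μ hμ).trans ?_, hY.s2, hY.cond, hY.simple, hY.prog,
      hY.card⟩
    rw [h3s]
    exact Nat.mul_le_mul_right _ (by omega)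
  · intro T' s' g1 g2 g3 g4 g5 g6
    rw [hlen] at g1 g3
    -- bounds
    have hA : 3 ^ j * (x + ω) = 3 ^ j * x + 3 ^ j * ω := by ring
    have hxx : x ≤ 3 ^ j * x := Nat.le_mul_of_pos_left _ h3p
    have hb : ∀ τ ∈ T', 3 ^ j * x + cj j ≤ τ ∧ τ ≤ 3 ^ j * x + cj j + 3 ^ j * ω := by
      intro τ hτ
      obtain ⟨G', hG', he⟩ := g2 τ hτ
      have := tau_bounds (hGs G' hG').1 (hGs G' hG').2 he
      omega
    have hB : 3 ^ (j + 1) * (x + ω + 1) = 3 * (3 ^ j * x) + 3 * (3 ^ j * ω) + 3 * 3 ^ j := by
      rw [h3s]
      ring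
    have htwo : ∀ τ ∈ T', 2 ≤ τ := fun τ hτ => by
      have := hb τ hτ
      omega
    have hlo : 9 * (3 ^ j * x + cj j) ≤ T'.sum := by
      have := Multiset.card_nsmul_le_sum (s := T') (a := 3 ^ j * x + cj j)
        (fun μ hμ => (hb μ hμ).1)
      rwa [g1, smul_eq_mul] at this
    have hhi : T'.sum ≤ 9 * (3 ^ j * x + cj j + 3 ^ j * ω) := by
      have := Multiset.sum_le_card_nsmul T' (3 ^ j * x + cj j + 3 ^ j * ω)
        (fun μ hμ => (hb μ hμ).2)
      rwa [g1, smul_eq_mul] at this
    have hV : 45 * S2 T' ≤ 5 * S1 T' ^ 2 + 4 * S1 T' := by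
      refine nine_near (ω := 3 ^ j * ω) g1 hb ?_
      have e1 : 5 * (3 ^ j * ω) ^ 2 = 3 ^ j * (5 * 3 ^ j * ω ^ 2) := by ring
      rw [e1]
      exact (Nat.mul_le_mul_left _ hωj).trans (Nat.le_add_right _ _)
    by_cases hne : ∃ a ∈ T', ∃ b ∈ T', a ≠ b
    · obtain ⟨ρ, σ, e1, e2, e3, e4, e5, e6⟩ := step9 g1 htwo hV hne
      have e5' : (T'.sum / 3 + 1 + 1) ^ 2 ≤ S2 T' :=
        (Nat.pow_le_pow_left (by omega) 2).trans e5
      refine e6 d R s' ?_ ?_
      · rw [← Multiset.singleton_add]
        refine h1 {T'.sum / 3 + 2} s' ⟨?_, ?_, ?_, ?_, g6, Or.inr ?_, ?_⟩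
        · intro μ hμ
          rw [Multiset.mem_singleton.mp hμ]
          omega
        · intro μ hμ
          rw [Multiset.mem_singleton.mp hμ, hB]
          omega
        · refine le_trans ?_ g4
          simpa [S2] using e5
        · simp only [cd, Multiset.map_singleton, Multiset.sum_singleton] at g5 e1 ⊢
          omega
        · simp only [cd, Multiset.map_singleton, Multiset.sum_singleton] at g5 e1 ⊢
          omega
        · rw [Multiset.card_singleton]
          omega
      · by_cases h3 : 3 ∣ T'.sum
        · refine h2 (T'.sum / 3 + 1) (s' + σ) ?_ (e5'.trans g4) (by omega) (by omega)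
          obtain ⟨t, ht⟩ := h3
          rw [ht, Nat.mul_div_cancel_left t (by norm_num), cj_succ, h3s]
          rw [ht] at g3
          have e7 : 3 * 3 ^ j * (t + 1) = 3 ^ j * (3 * t) + 3 * 3 ^ j := by ring
          rw [e7, g3]
          ring
        · have e4' := e4 h3
          rw [← Multiset.singleton_add]
          refine h1 {T'.sum / 3 + 1} (s' + σ) ⟨?_, ?_, ?_, ?_, by omega, Or.inl ?_, ?_⟩
          · intro μ hμ
            rw [Multiset.mem_singleton.mp hμ]
            omega
          · intro μ hμ
            rw [Multiset.mem_singleton.mp hμ, hB]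
            omega
          · refine le_trans ?_ g4
            simpa [S2] using e5'
          · simp only [cd, Multiset.map_singleton, Multiset.sum_singleton] at g5 e2 ⊢
            omega
          · omega
          · rw [Multiset.card_singleton]
            omega
    · push Not at hne
      obtain ⟨τ, hτ⟩ := Multiset.card_pos_iff_exists_mem.mp (by rw [g1]; norm_num :
        0 < Multiset.card T')
      have hT : T' = Multiset.replicate 9 τ :=
        Multiset.eq_replicate.mpr ⟨g1, fun b hb' => hne b hb' τ hτ⟩
      have hτb := hb τ hτ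
      obtain ⟨k1, k2⟩ := kk_four τ
      have hS : S2 T' = 9 * (τ + 1) ^ 2 := by rw [hT, S2_rep]
      have hcd : cd T' = 9 * kk τ := by rw [hT, cd_rep]
      have hsplit : T' + R = Multiset.replicate 4 τ + (Multiset.replicate 5 τ + R) := by
        rw [hT, ← add_assoc, ← Multiset.replicate_add]
      rw [hsplit]
      refine step4 (by omega) ?_ ?_
      · rw [← Multiset.cons_add]
        refine h1 ((2 * τ + 1) ::ₘ Multiset.replicate 5 τ) s' ⟨?_, ?_, ?_, ?_, g6, Or.inr ?_, ?_⟩
        · intro μ hμ
          rcases Multiset.mem_cons.mp hμ with rfl | h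
          · omega
          · rw [Multiset.eq_of_mem_replicate h]
            omega
        · intro μ hμ
          rw [hB]
          rcases Multiset.mem_cons.mp hμ with rfl | h
          · omega
          · rw [Multiset.eq_of_mem_replicate h]
            omega
        · rw [S2_cons, S2_rep]
          refine le_trans (le_of_eq ?_) g4
          rw [hS]
          ring
        · rw [cd_cons, cd_rep]
          omega
        · rw [cd_cons, cd_rep]
          omega
        · rw [Multiset.card_cons, Multiset.card_replicate]
          omega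
      · rw [← Multiset.cons_add]
        refine h1 ((2 * τ) ::ₘ Multiset.replicate 5 τ) (s' + τ) ⟨?_, ?_, ?_, ?_, by omega,
          Or.inl ?_, ?_⟩
        · intro μ hμ
          rcases Multiset.mem_cons.mp hμ with rfl | h
          · omega
          · rw [Multiset.eq_of_mem_replicate h]
            omega
        · intro μ hμ
          rw [hB]
          rcases Multiset.mem_cons.mp hμ with rfl | h
          · omega
          · rw [Multiset.eq_of_mem_replicate h]
            omega
        · rw [S2_cons, S2_rep]
          refine le_trans ?_ g4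
          rw [hS]
          nlinarith
        · rw [cd_cons, cd_rep]
          omega
        · omega
        · rw [Multiset.card_cons, Multiset.card_replicate]
          omega

theorem tree (j : ℕ) : TreeP j := by
  induction j with
  | zero => exact treeP_zero
  | succ j ih => exact treeP_succ ih

end Pool.Agent.helper25.SX
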