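import Pool.Agent.helper25.SX.TreeD

set_option autoImplicit false

/-!
# Module Tree0: `treeP_zero`, `tau_bounds`, `block` (see below; the rest is in the modules Split9, Tree)

`TreeP j`: for a group `G` of `9 ^ j` points with multiplicities in `[x, x + ω]`, `5 * 3 ^ j * ω ^ 2 ≤ x`:
to prove `P d (G + R) s` it suffices to treat all outcomes with progress (`POut`), and the one outcome
where `G` has become a single point `τ` with `3 ^ j τ = G.sum + 3 ^ j cj j`.

`treeP_zero`: `G = {a}`, use the second hypothesis with `s' = s`.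
`block` (list of groups, each treated by `TreeP j`): induction on the list. For `G :: Gs`: apply
`TreeP j` to `G` with `R := Gs.sum + R`. Outcomes `Y, s'` with progress: `Y + Gs.sum` is an outcome of
`G + Gs.sum` with progress, first hypothesis of `block`. Outcome `τ, s'`: induction hypothesis for `Gs` with
`R := τ ::ₘ R`, `s := s'`; its outcomes `Y, s''` with progress: `τ ::ₘ Y` is an outcome of
`G + Gs.sum` with progress (add the inequalities); its final outcomes `T', s''`: `τ ::ₘ T'`.
`tree`: `TreeP j` for all `j`, induction. Step: write `G` as a sum of nine groups of `9 ^ j`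
elements, `block`. Final outcomes: nine numbers `T'` in `[3 ^ j x + cj j, 3 ^ j (x + ω) + cj j]`; they are
nearly equal: `45 S2 T' ≤ 5 (S1 T') ^ 2 + 4 S1 T'` (`nine_near` with `ω' = 3 ^ j ω`, since
`5 ω' ^ 2 ≤ 3 ^ j x`). If `T'` is constant `= replicate 9 τ`: `step4` for four of them, both outcomes have
progress (`kk_four`). Otherwise `step9`: the raised outcome has progress (`15 ρ ≥ T'.sum ≥ 9 x`); if
`T'.sum` is not divisible by `3` the lowered outcome has progress; otherwise the lowered outcome is
`τ = T'.sum / 3 + 1`, `3 ^ (j+1) τ = 3 ^ j T'.sum + 3 ^ (j+1) = G.sum + 9 * 3 ^ j cj j + 3 ^ (j+1) =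
G.sum + 3 ^ (j+1) cj (j+1)`.
-/

namespace Pool.Agent.helper25.SX

open MvPolynomial Pool.Agent.helper89.Segre Pool.Agent.SH9 Pool.Agent.helper25.ST

theorem treeP_zero : TreeP 0 := by
  intro d x ω G R s hx hω hc hG h1 h2
  rw [pow_zero, Multiset.card_eq_one] at hc
  obtain ⟨a, rfl⟩ := hc
  have h := h2 a s (by simp [cj]) (by simp [S2]) (by simp [cd]) le_rfl
  rwa [Multiset.singleton_add]

/-- bounds of `τ` -/
theorem tau_bounds {j x ω τ : ℕ} {G : Multiset ℕ} (hc : Multiset.card G = 9 ^ j)
    (hG : ∀ μ ∈ G, x ≤ μ ∧ μ ≤ x + ω) (h : 3 ^ j * τ = G.sum + 3 ^ j * cj j) :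
    3 ^ j * x + cj j ≤ τ ∧ τ ≤ 3 ^ j * (x + ω) + cj j := by
  have h3 : 0 < 3 ^ j := by positivity
  have h9 : 9 ^ j = 3 ^ j * 3 ^ j := by
    rw [← mul_pow]
    norm_num
  have hlo : 9 ^ j * x ≤ G.sum := by
    have := Multiset.card_nsmul_le_sum (s := G) (a := x) (fun μ hμ => (hG μ hμ).1)
    rwa [hc, smul_eq_mul] at this
  have hhi : G.sum ≤ 9 ^ j * (x + ω) := by
    have := Multiset.sum_le_card_nsmul G (x + ω) (fun μ hμ => (hG μ hμ).2)
    rwa [hc, smul_eq_mul] at this
  rw [h9] at hlo hhi
  constructor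
  · refine Nat.le_of_mul_le_mul_left ?_ h3
    rw [h, mul_add, ← mul_assoc]
    exact Nat.add_le_add_right hlo _
  · refine Nat.le_of_mul_le_mul_left ?_ h3
    rw [h, mul_add, ← mul_assoc]
    exact Nat.add_le_add_right hhi _

private lemma mem_list_sum {Gs : List (Multiset ℕ)} {μ : ℕ} (h : μ ∈ Gs.sum) :
    ∃ G ∈ Gs, μ ∈ G := by
  induction Gs with
  | nil => simp at h
  | cons G Gs ih =>
    rw [List.sum_cons, Multiset.mem_add] at h
    rcases h with h | h
    · exact ⟨G, List.mem_cons_self, h⟩
    · obtain ⟨G', h1, h2⟩ := ih h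
      exact ⟨G', List.mem_cons_of_mem _ h1, h2⟩

theorem block {j : ℕ} (hj : TreeP j) {d x ω : ℕ} (hx : 2 ≤ x) (hω : 5 * 3 ^ j * ω ^ 2 ≤ x)
    (Gs : List (Multiset ℕ)) : ∀ (R : Multiset ℕ) (s : ℕ),
    (∀ G ∈ Gs, Multiset.card G = 9 ^ j ∧ ∀ μ ∈ G, x ≤ μ ∧ μ ≤ x + ω) →
    (∀ Y s', POut Gs.sum s x (3 ^ j * (x + ω + 1)) Y s' → P d (Y + R) s') →
    (∀ (T' : Multiset ℕ) s', Multiset.card T' = Gs.length →
      (∀ τ ∈ T', ∃ G ∈ Gs, 3 ^ j * τ = G.sum + 3 ^ j * cj j) →
      3 ^ j * T'.sum = Gs.sum.sum + Gs.length * (3 ^ j * cj j) → S2 T' ≤ S2 Gs.sum →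
      cd Gs.sum + s ≤ cd T' + s' → s ≤ s' → P d (T' + R) s') →
    P d (Gs.sum + R) s := by
  induction Gs with
  | nil =>
    intro R s _ _ h3
    exact h3 0 s rfl (by simp) (by simp) le_rfl le_rfl le_rfl
  | cons G Gs ih =>
    intro R s hGs h2 h3
    have hG := hGs G List.mem_cons_self
    have h3p : 0 < 3 ^ j := by positivity
    have h9p : 0 < 9 ^ j := by positivity
    have hcj := two_cj j
    rw [List.sum_cons] at h2 ⊢
    rw [add_assoc]
    refine hj d x ω G (Gs.sum + R) s hx hω hG.1 hG.2 ?_ ?_
    · intro Y s' hY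
      rw [← add_assoc]
      refine h2 (Y + Gs.sum) s' ⟨?_, ?_, ?_, ?_, hY.simple, ?_, ?_⟩
      · intro μ hμ
        rcases Multiset.mem_add.mp hμ with h | h
        · exact hY.two μ h
        · obtain ⟨G', hG', hm⟩ := mem_list_sum h
          exact hx.trans ((hGs G' (List.mem_cons_of_mem _ hG')).2 μ hm).1
      · intro μ hμ
        rcases Multiset.mem_add.mp hμ with h | h
        · exact hY.le μ h
        · obtain ⟨G', hG', hm⟩ := mem_list_sum h
          have h5 := ((hGs G' (List.mem_cons_of_mem _ hG')).2 μ hm).2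
          have h6 : x + ω + 1 ≤ 3 ^ j * (x + ω + 1) := Nat.le_mul_of_pos_left _ h3p
          omega
      · rw [S2_add, S2_add]
        exact Nat.add_le_add_right hY.s2 _
      · rw [cd_add, cd_add]
        have := hY.cond
        omega
      · rw [cd_add, cd_add]
        rcases hY.prog with h | h
        · exact Or.inl h
        · right
          omega
      · rw [Multiset.card_add, Multiset.card_add]
        exact Nat.add_lt_add_right hY.card _
    · intro τ s' e1 e2 e3 e4
      have hτ := tau_bounds hG.1 hG.2 e1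
      rw [← Multiset.add_cons]
      refine ih (τ ::ₘ R) s' (fun G' hG' => hGs G' (List.mem_cons_of_mem _ hG')) ?_ ?_
      · intro Y s'' hY
        rw [Multiset.add_cons, ← Multiset.cons_add]
        refine h2 (τ ::ₘ Y) s'' ⟨?_, ?_, ?_, ?_, e4.trans hY.simple, ?_, ?_⟩
        · intro μ hμ
          rcases Multiset.mem_cons.mp hμ with rfl | h
          · have h6 : x ≤ 3 ^ j * x := Nat.le_mul_of_pos_left _ h3p
            omega
          · exact hY.two μ h
        · intro μ hμ
          rcases Multiset.mem_cons.mp hμ with rfl | h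
          · have h6 : 3 ^ j * (x + ω + 1) = 3 ^ j * (x + ω) + 3 ^ j := by ring
            omega
          · exact hY.le μ h
        · rw [S2_cons, S2_add]
          exact Nat.add_le_add e2 hY.s2
        · rw [cd_cons, cd_add]
          have := hY.cond
          omega
        · rw [cd_cons, cd_add]
          rcases hY.prog with h | h
          · left
            omega
          · right
            omega
        · rw [Multiset.card_cons, Multiset.card_add, hG.1]
          have := hY.card
          omega
      · intro T' s'' g1 g2 g3 g4 g5 g6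
        rw [Multiset.add_cons, ← Multiset.cons_add]
        refine h3 (τ ::ₘ T') s'' ?_ ?_ ?_ ?_ ?_ (e4.trans g6)
        · rw [Multiset.card_cons, g1, List.length_cons]
        · intro τ' hτ'
          rcases Multiset.mem_cons.mp hτ' with rfl | h
          · exact ⟨G, List.mem_cons_self, e1⟩
          · obtain ⟨G', h5, h6⟩ := g2 τ' h
            exact ⟨G', List.mem_cons_of_mem _ h5, h6⟩
        · rw [Multiset.sum_cons, List.sum_cons, Multiset.sum_add, List.length_cons, mul_add, e1, g3]
          ring
        · rw [S2_cons, List.sum_cons, S2_add]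
          exact Nat.add_le_add e2 g4
        · rw [cd_cons, List.sum_cons, cd_add]
          omega

end Pool.Agent.helper25.SX
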