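import Pool.Agent.helper25.SX.Nine2

set_option autoImplicit false

/-!
# The statement of the tree lemma
-/

namespace Pool.Agent.helper25.SX

open MvPolynomial Pool.Agent.helper89.Segre Pool.Agent.SH9 Pool.Agent.helper25.ST

/-- the statement of the tree lemma -/
def TreeP (j : ℕ) : Prop := ∀ (d x ω : ℕ) (G R : Multiset ℕ) (s : ℕ), 2 ≤ x →
  5 * 3 ^ j * ω ^ 2 ≤ x → Multiset.card G = 9 ^ j → (∀ μ ∈ G, x ≤ μ ∧ μ ≤ x + ω) →
  (∀ Y s', POut G s x (3 ^ j * (x + ω + 1)) Y s' → P d (Y + R) s') →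
  (∀ τ s', 3 ^ j * τ = G.sum + 3 ^ j * cj j → (τ + 1) ^ 2 ≤ S2 G → cd G + s ≤ kk τ + s' → s ≤ s' →
    P d (τ ::ₘ R) s') →
  P d (G + R) s

end Pool.Agent.helper25.SX
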